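import Mathlib

namespace Pool.Agent.Lib.MP_731221_co

variable {α : Type*}

/-- The finite set `X` has at least `k` elements in `A`. -/
def Many (X : Finset α) (A : Set α) (k : ℕ) : Prop :=
  ∃ G : Finset α, (∀ p ∈ G, p ∈ X ∧ p ∈ A) ∧ k ≤ G.card

theorem Many.mono {X X' : Finset α} {A A' : Set α} {k k' : ℕ} (h : Many X A k)
    (hX : ∀ p ∈ X, p ∈ A → p ∈ X' ∧ p ∈ A') (hk : k' ≤ k) : Many X' A' k' := by
  obtain ⟨G, hG, hc⟩ := h
  exact ⟨G, fun p hp => hX p (hG p hp).1 (hG p hp).2, hk.trans hc⟩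

theorem Many.sub {X X' : Finset α} {A : Set α} {k : ℕ} (h : Many X A k)
    (hX : X ⊆ X') : Many X' A k :=
  h.mono (fun p hp hA => ⟨hX hp, hA⟩) le_rfl

theorem Many.le {X : Finset α} {A : Set α} {k k' : ℕ} (h : Many X A k)
    (hk : k' ≤ k) : Many X A k' :=
  h.mono (fun p hp hA => ⟨hp, hA⟩) hk

open Classical in
theorem many_iff {X : Finset α} {A : Set α} {k : ℕ} :
    Many X A k ↔ k ≤ (X.filter (fun p => p ∈ A)).card := by
  constructor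
  · rintro ⟨G, hG, hc⟩
    refine hc.trans (Finset.card_le_card ?_)
    intro p hp
    exact Finset.mem_filter.2 (hG p hp)
  · intro h
    exact ⟨_, fun p hp => Finset.mem_filter.1 hp, h⟩

/-- General splitting principle. -/
theorem Many.split {X : Finset α} {A : Set α} {j k : ℕ} (h : Many X A (j + k))
    {Y Y' : Finset α} {A1 A2 : Set α}
    (hc : ∀ p ∈ X, p ∈ A → (p ∈ Y ∧ p ∈ A1) ∨ (p ∈ Y' ∧ p ∈ A2)) :
    Many Y A1 j ∨ Many Y' A2 k := by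
  classical
  obtain ⟨G, hG, hcard⟩ := h
  by_cases h1 : j ≤ (G.filter (fun p => p ∈ Y ∧ p ∈ A1)).card
  · left
    exact ⟨_, fun p hp => (Finset.mem_filter.1 hp).2, h1⟩
  · right
    refine ⟨G.filter (fun p => ¬ (p ∈ Y ∧ p ∈ A1)), ?_, ?_⟩
    · intro p hp
      obtain ⟨hp1, hp2⟩ := Finset.mem_filter.1 hp
      rcases hc p (hG p hp1).1 (hG p hp1).2 with h | h
      · exact absurd h hp2
      · exact h
    · have := Finset.card_filter_add_card_filter_not (s := G) (fun p => p ∈ Y ∧ p ∈ A1)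
      omega

/-- The two families can be served by the two parts of a partition. -/
def Part (𝒜 ℬ : Set (Set α)) : Prop :=
  ∀ k : ℕ, ∃ M : ℕ, ∀ X : Finset α, ∃ Y Y' : Finset α,
    (∀ x, x ∈ Y → x ∉ Y') ∧ (∀ x, x ∈ X ↔ x ∈ Y ∨ x ∈ Y') ∧
    (∀ A ∈ 𝒜, Many X A M → Many Y A k) ∧ (∀ B ∈ ℬ, Many X B M → Many Y' B k)

theorem Part.symm {𝒜 ℬ : Set (Set α)} (h : Part 𝒜 ℬ) : Part ℬ 𝒜 := by
  intro k
  obtain ⟨M, hM⟩ := h k
  refine ⟨M, fun X => ?_⟩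
  obtain ⟨Y, Y', h1, h2, h3, h4⟩ := hM X
  refine ⟨Y', Y, fun x hx hx' => h1 x hx' hx, fun x => (h2 x).trans Or.comm, h4, h3⟩

theorem Part.mono {𝒜 ℬ 𝒜' ℬ' : Set (Set α)} (h : Part 𝒜 ℬ) (hA : 𝒜' ⊆ 𝒜) (hB : ℬ' ⊆ ℬ) :
    Part 𝒜' ℬ' := by
  intro k
  obtain ⟨M, hM⟩ := h k
  refine ⟨M, fun X => ?_⟩
  obtain ⟨Y, Y', h1, h2, h3, h4⟩ := hM X
  exact ⟨Y, Y', h1, h2, fun A hA' => h3 A (hA hA'), fun B hB' => h4 B (hB hB')⟩

/-- If members of `ℬ` split into members of `ℬ1` and `ℬ2`, partitions combine. -/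
theorem Part.cover {𝒜 ℬ ℬ1 ℬ2 : Set (Set α)} (h1 : Part 𝒜 ℬ1) (h2 : Part 𝒜 ℬ2)
    (hB : ∀ B ∈ ℬ, ∀ X : Finset α, ∀ k : ℕ, Many X B (k + k) →
      (∃ B1 ∈ ℬ1, B1 ⊆ B ∧ Many X B1 k) ∨ (∃ B2 ∈ ℬ2, B2 ⊆ B ∧ Many X B2 k)) :
    Part 𝒜 ℬ := by
  classical
  intro k
  obtain ⟨M2, hM2⟩ := h2 k
  obtain ⟨M1, hM1⟩ := h1 (max k M2)
  set M : ℕ := max M1 (M2 + k) with hM
  refine ⟨M + M, fun X => ?_⟩
  obtain ⟨Y1, Y1', a1, a2, a3, a4⟩ := hM1 X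
  obtain ⟨Y2, Y2', b1, b2, b3, b4⟩ := hM2 Y1
  refine ⟨Y2, Y1' ∪ Y2', ?_, ?_, ?_, ?_⟩
  · intro x hx hx'
    rcases Finset.mem_union.1 hx' with h | h
    · exact a1 x ((b2 x).2 (Or.inl hx)) h
    · exact b1 x hx h
  · intro x
    rw [a2 x, b2 x, Finset.mem_union]
    tauto
  · intro A hA hm
    apply b3 A hA
    exact (a3 A hA (hm.le (by omega))).le (le_max_right _ _)
  · intro B hB' hm
    rcases hB B hB' X M hm with ⟨B1, hB1, hs, hm1⟩ | ⟨B2, hB2, hs, hm2⟩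
    · have := a4 B1 hB1 (hm1.le (by omega))
      refine this.mono ?_ (le_max_left _ _)
      intro p hp hp1
      exact ⟨Finset.mem_union_left _ hp, hs hp1⟩
    · have hm2' : Many X B2 (M2 + k) := hm2.le (by omega)
      rcases hm2'.split (Y := Y1) (Y' := Y1') (A1 := B2) (A2 := B2) (by
        intro p hp hp2
        rcases (a2 p).1 hp with h | h
        · exact Or.inl ⟨h, hp2⟩
        · exact Or.inr ⟨h, hp2⟩) with h | h
      · refine (b4 B2 hB2 h).mono ?_ le_rfl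
        intro p hp hp1
        exact ⟨Finset.mem_union_right _ hp, hs hp1⟩
      · refine h.mono ?_ le_rfl
        intro p hp hp1
        exact ⟨Finset.mem_union_left _ hp, hs hp1⟩

/-- Every member is one of two kinds. -/
theorem Part.union {𝒜 ℬ1 ℬ2 : Set (Set α)} (h1 : Part 𝒜 ℬ1) (h2 : Part 𝒜 ℬ2) :
    Part 𝒜 (ℬ1 ∪ ℬ2) := by
  refine h1.cover h2 ?_
  intro B hB X k hm
  rcases hB with h | h
  · exact Or.inl ⟨B, h, le_rfl, hm.le (by omega)⟩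
  · exact Or.inr ⟨B, h, le_rfl, hm.le (by omega)⟩

/-- Each member is the union of two pieces. -/
theorem Part.pieces {𝒜 ℬ ℬ1 ℬ2 : Set (Set α)} (h1 : Part 𝒜 ℬ1) (h2 : Part 𝒜 ℬ2)
    (hB : ∀ B ∈ ℬ, ∃ B1 ∈ ℬ1, ∃ B2 ∈ ℬ2, B1 ⊆ B ∧ B2 ⊆ B ∧ B ⊆ B1 ∪ B2) :
    Part 𝒜 ℬ := by
  refine h1.cover h2 ?_
  intro B hB' X k hm
  obtain ⟨B1, hB1, B2, hB2, s1, s2, s3⟩ := hB B hB'
  rcases hm.split (Y := X) (Y' := X) (A1 := B1) (A2 := B2) (by
    intro p hp hpB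
    rcases s3 hpB with h | h
    · exact Or.inl ⟨hp, h⟩
    · exact Or.inr ⟨hp, h⟩) with h | h
  · exact Or.inl ⟨B1, hB1, s1, h⟩
  · exact Or.inr ⟨B2, hB2, s2, h⟩

/-- Two-colourability (in the strong local form) of a family. -/
def Colourable (𝒜 : Set (Set α)) : Prop :=
  ∃ m : ℕ, ∀ X : Finset α, ∃ col : α → Bool, ∀ A ∈ 𝒜, Many X A m →
    ∀ c : Bool, ∃ p ∈ X, p ∈ A ∧ col p = c

/-- Three pairwise (and self) partitionable families have a two-colourable union. -/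
theorem colourable_of_three {𝒜 ℬ 𝒞 : Set (Set α)}
    (hAA : Part 𝒜 𝒜) (hBB : Part ℬ ℬ) (hCC : Part 𝒞 𝒞)
    (hAB : Part 𝒜 ℬ) (hAC : Part 𝒜 𝒞) (hBC : Part ℬ 𝒞) : Colourable (𝒜 ∪ ℬ ∪ 𝒞) := by
  classical
  obtain ⟨mA, hmA⟩ := hAA 1
  obtain ⟨mB, hmB⟩ := hBB 1
  obtain ⟨mC, hmC⟩ := hCC 1
  obtain ⟨n1, hn1⟩ := hAC (max mA mC)
  obtain ⟨n2, hn2⟩ := hBC (max mB mC)
  obtain ⟨n, hn⟩ := hAB (max n1 n2)
  refine ⟨max n (n1 + n2), fun X => ?_⟩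
  obtain ⟨P, P', p1, p2, p3, p4⟩ := hn X
  obtain ⟨X1, P3, q1, q2, q3, q4⟩ := hn1 P
  obtain ⟨X2, P3', r1, r2, r3, r4⟩ := hn2 P'
  obtain ⟨A1, A2, a1, a2, a3, a4⟩ := hmA X1
  obtain ⟨B1, B2, b1, b2, b3, b4⟩ := hmB X2
  obtain ⟨C1, C2, c1, c2, c3, c4⟩ := hmC (P3 ∪ P3')
  have hX1 : ∀ x ∈ X1, x ∈ X := fun x hx => (p2 x).2 (Or.inl ((q2 x).2 (Or.inl hx)))
  have hX2 : ∀ x ∈ X2, x ∈ X := fun x hx => (p2 x).2 (Or.inr ((r2 x).2 (Or.inl hx)))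
  have hX3 : ∀ x ∈ P3 ∪ P3', x ∈ X := by
    intro x hx
    rcases Finset.mem_union.1 hx with h | h
    · exact (p2 x).2 (Or.inl ((q2 x).2 (Or.inr h)))
    · exact (p2 x).2 (Or.inr ((r2 x).2 (Or.inr h)))
  -- disjointness
  have d12 : ∀ x, x ∈ X1 → x ∉ X2 := fun x hx hx' =>
    p1 x ((q2 x).2 (Or.inl hx)) ((r2 x).2 (Or.inl hx'))
  have d13 : ∀ x, x ∈ X1 → x ∉ P3 ∪ P3' := by
    intro x hx hx'
    rcases Finset.mem_union.1 hx' with h | h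
    · exact q1 x hx h
    · exact p1 x ((q2 x).2 (Or.inl hx)) ((r2 x).2 (Or.inr h))
  have d23 : ∀ x, x ∈ X2 → x ∉ P3 ∪ P3' := by
    intro x hx hx'
    rcases Finset.mem_union.1 hx' with h | h
    · exact p1 x ((q2 x).2 (Or.inr h)) ((r2 x).2 (Or.inl hx))
    · exact r1 x hx h
  refine ⟨fun x => decide (x ∈ A1 ∨ x ∈ B1 ∨ x ∈ C1), ?_⟩
  -- extraction helper
  have ext1 : ∀ (Y : Finset α) (A : Set α), Many Y A 1 → ∃ p ∈ Y, p ∈ A := by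
    rintro Y A ⟨G, hG, hc⟩
    obtain ⟨p, hp⟩ := Finset.card_pos.1 (by omega : 0 < G.card)
    exact ⟨p, (hG p hp).1, (hG p hp).2⟩
  intro A hA hm c
  rcases hA with (hA | hA) | hA
  · have h1 : Many X1 A mA := (q3 A hA ((p3 A hA (hm.le (le_max_left _ _))).le
      (le_max_left _ _))).le (le_max_left _ _)
    cases c
    · obtain ⟨p, hp, hpA⟩ := ext1 _ _ (a4 A hA h1)
      have hp1 : p ∈ X1 := (a2 p).2 (Or.inr hp)
      refine ⟨p, hX1 p hp1, hpA, ?_⟩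
      simp only [decide_eq_false_iff_not]
      rintro (h | h | h)
      · exact a1 p h hp
      · exact d12 p hp1 ((b2 p).2 (Or.inl h))
      · exact d13 p hp1 ((c2 p).2 (Or.inl h))
    · obtain ⟨p, hp, hpA⟩ := ext1 _ _ (a3 A hA h1)
      exact ⟨p, hX1 p ((a2 p).2 (Or.inl hp)), hpA, by simp [hp]⟩
  · have h1 : Many X2 A mB := (r3 A hA ((p4 A hA (hm.le (le_max_left _ _))).le
      (le_max_right _ _))).le (le_max_left _ _)
    cases c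
    · obtain ⟨p, hp, hpA⟩ := ext1 _ _ (b4 A hA h1)
      have hp1 : p ∈ X2 := (b2 p).2 (Or.inr hp)
      refine ⟨p, hX2 p hp1, hpA, ?_⟩
      simp only [decide_eq_false_iff_not]
      rintro (h | h | h)
      · exact d12 p ((a2 p).2 (Or.inl h)) hp1
      · exact b1 p h hp
      · exact d23 p hp1 ((c2 p).2 (Or.inl h))
    · obtain ⟨p, hp, hpA⟩ := ext1 _ _ (b3 A hA h1)
      exact ⟨p, hX2 p ((b2 p).2 (Or.inl hp)), hpA, by simp [hp]⟩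
  · have h1 : Many (P3 ∪ P3') A mC := by
      rcases (hm.le (le_max_right _ _)).split (Y := P) (Y' := P') (A1 := A) (A2 := A) (by
        intro p hp hp2
        rcases (p2 p).1 hp with h | h
        · exact Or.inl ⟨h, hp2⟩
        · exact Or.inr ⟨h, hp2⟩) with h | h
      · exact ((q4 A hA h).le (le_max_right _ _)).sub Finset.subset_union_left
      · exact ((r4 A hA h).le (le_max_right _ _)).sub Finset.subset_union_right
    cases c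
    · obtain ⟨p, hp, hpA⟩ := ext1 _ _ (c4 A hA h1)
      have hp1 : p ∈ P3 ∪ P3' := (c2 p).2 (Or.inr hp)
      refine ⟨p, hX3 p hp1, hpA, ?_⟩
      simp only [decide_eq_false_iff_not]
      rintro (h | h | h)
      · exact d13 p ((a2 p).2 (Or.inl h)) hp1
      · exact d23 p ((b2 p).2 (Or.inl h)) hp1
      · exact c1 p h hp
    · obtain ⟨p, hp, hpA⟩ := ext1 _ _ (c3 A hA h1)
      exact ⟨p, hX3 p ((c2 p).2 (Or.inl hp)), hpA, by simp [hp]⟩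

end Pool.Agent.Lib.MP_731221_co
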