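import Pool.Agent.Lib.MP_731221_co.Opp

namespace Pool.Agent.Lib.MP_731221_co

/-! ### Elementary inequalities -/

theorem sq_conc (ρ x y l μ : ℝ) (hl : 0 ≤ l) (hμ : 0 ≤ μ) (hs : l + μ = 1) (hx : x ^ 2 ≤ ρ)
    (hy : y ^ 2 ≤ ρ) :
    l * √(ρ - x ^ 2) + μ * √(ρ - y ^ 2) ≤ √(ρ - (l * x + μ * y) ^ 2) := by
  apply Real.le_sqrt_of_sq_le
  have h1 := Real.sq_sqrt (sub_nonneg.2 hx)
  have h2 := Real.sq_sqrt (sub_nonneg.2 hy)
  set a := √(ρ - x ^ 2)
  set b := √(ρ - y ^ 2)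
  have h3 : 2 * (x * y + a * b) ≤ 2 * ρ := by nlinarith [sq_nonneg (x - y), sq_nonneg (a - b)]
  have hμ' : μ = 1 - l := by linarith
  subst hμ'
  have h4 : 0 ≤ l * (1 - l) := mul_nonneg hl hμ
  nlinarith [mul_le_mul_of_nonneg_left h3 h4]

theorem four_pt (ρ A B h : ℝ) (hAB : A ≤ B) (hh : 0 ≤ h) (hA : A ^ 2 ≤ ρ)
    (hBh : (B + h) ^ 2 ≤ ρ) :
    √(ρ - (B + h) ^ 2) + √(ρ - A ^ 2) ≤ √(ρ - B ^ 2) + √(ρ - (A + h) ^ 2) := by
  rcases eq_or_lt_of_le (add_nonneg (sub_nonneg.2 hAB) hh) with h0 | h0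
  · have h1 : B = A := by linarith
    have h2 : h = 0 := by linarith
    subst h1 h2
    simp
  · set D := B - A + h with hD
    have e1 := sq_conc ρ A (B + h) (h / D) ((B - A) / D) (div_nonneg hh h0.le)
      (div_nonneg (sub_nonneg.2 hAB) h0.le) (by rw [← add_div, div_eq_one_iff_eq h0.ne']; rw [hD]; ring)
      hA hBh
    have e2 := sq_conc ρ A (B + h) ((B - A) / D) (h / D) (div_nonneg (sub_nonneg.2 hAB) h0.le)
      (div_nonneg hh h0.le) (by rw [← add_div, div_eq_one_iff_eq h0.ne']) hA hBh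
    have e3 : h / D * A + (B - A) / D * (B + h) = B := by
      field_simp; rw [hD]; ring
    have e4 : (B - A) / D * A + h / D * (B + h) = A + h := by
      field_simp; rw [hD]; ring
    rw [e3] at e1
    rw [e4] at e2
    have e5 : h / D + (B - A) / D = 1 := by
      rw [← add_div, div_eq_one_iff_eq h0.ne']; rw [hD]; ring
    have e6 : (h / D + (B - A) / D) * √(ρ - A ^ 2) = √(ρ - A ^ 2) := by rw [e5, one_mul]
    have e7 : (h / D + (B - A) / D) * √(ρ - (B + h) ^ 2) = √(ρ - (B + h) ^ 2) := by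
      rw [e5, one_mul]
    nlinarith

theorem sqrt_lip (a b : ℝ) (ha : |a| ≤ 7 / 10) (hb : |b| ≤ 7 / 10) :
    √(1 - a ^ 2) ≤ √(1 - b ^ 2) + |a - b| := by
  apply Real.sqrt_le_iff.2
  have hb2 : b ^ 2 ≤ 49 / 100 := by
    have := abs_le.1 hb
    nlinarith [this.1, this.2]
  have h1 : 7 / 10 ≤ √(1 - b ^ 2) := by
    apply Real.le_sqrt_of_sq_le
    nlinarith
  have h2 := Real.sq_sqrt (show (0 : ℝ) ≤ 1 - b ^ 2 by linarith)
  have h3 : 0 ≤ |a - b| := abs_nonneg _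
  refine ⟨by positivity, ?_⟩
  have h4 : |a - b| ^ 2 = (a - b) ^ 2 := sq_abs _
  have h5 : -(|a - b| * |a|) ≤ (a - b) * a := by
    rw [← abs_mul]; exact neg_abs_le _
  have h6 : |a - b| * |a| ≤ |a - b| * √(1 - b ^ 2) :=
    mul_le_mul_of_nonneg_left (ha.trans h1) h3
  nlinarith

/-! ### The cell -/

/-- Points of the closed cell of side one tenth. -/
structure QP where
  x : ℝ
  y : ℝ
  hx : 0 ≤ x ∧ x ≤ 1 / 10
  hy : 0 ≤ y ∧ y ≤ 1 / 10

theorem QP.ext' {p q : QP} (h1 : p.x = q.x) (h2 : p.y = q.y) : p = q := by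
  cases p; cases q; simp only at h1 h2; subst h1 h2; rfl

/-- Top ranges. -/
def TF : Set (Set QP) := {A | ∃ b c : ℝ, b ≤ -4 / 5 ∧ -3 / 5 ≤ c ∧ c ≤ 7 / 10 ∧
  A = {p | p.y ≤ b + √(1 - (p.x - c) ^ 2)}}

/-- Ranges with the disc to the right. -/
def NF : Set (Set QP) := {A | ∃ b c : ℝ, -4 / 5 ≤ b ∧ 1 / 20 ≤ c ∧
  A = {p | b ≤ p.y ∧ c ≤ p.x + √(1 - (p.y - b) ^ 2)}}

/-- Ranges with the disc to the left. -/
def WF : Set (Set QP) := {A | ∃ b c : ℝ, -4 / 5 ≤ b ∧ c ≤ 1 / 20 ∧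
  A = {p | b ≤ p.y ∧ -c ≤ -p.x + √(1 - (p.y - b) ^ 2)}}

/-- Order by height. -/
@[reducible] noncomputable def ordY : LinearOrder QP :=
  LinearOrder.lift' (fun p : QP => (toLex (p.y, p.x) : ℝ ×ₗ ℝ)) (by
    intro p q h
    have h' := congrArg ofLex h
    simp only [ofLex_toLex, Prod.mk.injEq] at h'
    exact QP.ext' h'.2 h'.1)

/-- Order by abscissa. -/
@[reducible] noncomputable def ordX : LinearOrder QP :=
  LinearOrder.lift' (fun p : QP => (toLex (p.x, p.y) : ℝ ×ₗ ℝ)) (by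
    intro p q h
    have h' := congrArg ofLex h
    simp only [ofLex_toLex, Prod.mk.injEq] at h'
    exact QP.ext' h'.1 h'.2)

/-- Order by the difference of the coordinates. -/
@[reducible] noncomputable def ordU : LinearOrder QP :=
  LinearOrder.lift' (fun p : QP => (toLex (p.x - p.y, p.y) : ℝ ×ₗ ℝ)) (by
    intro p q h
    have h' := congrArg ofLex h
    simp only [ofLex_toLex, Prod.mk.injEq] at h'
    exact QP.ext' (by linarith [h'.1, h'.2]) h'.2)

theorem ordY_le {p q : QP} (h : ordY.le p q) : p.y ≤ q.y := by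
  have h' : (toLex (p.y, p.x) : ℝ ×ₗ ℝ) ≤ toLex (q.y, q.x) := h
  rw [Prod.Lex.toLex_le_toLex] at h'
  rcases h' with h' | h'
  · exact h'.le
  · exact h'.1.le

theorem ordX_le {p q : QP} (h : ordX.le p q) : p.x ≤ q.x := by
  have h' : (toLex (p.x, p.y) : ℝ ×ₗ ℝ) ≤ toLex (q.x, q.y) := h
  rw [Prod.Lex.toLex_le_toLex] at h'
  rcases h' with h' | h'
  · exact h'.le
  · exact h'.1.le

theorem ordU_le {p q : QP} (h : ordU.le p q) : p.x - p.y ≤ q.x - q.y := by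
  have h' : (toLex (p.x - p.y, p.y) : ℝ ×ₗ ℝ) ≤ toLex (q.x - q.y, q.y) := h
  rw [Prod.Lex.toLex_le_toLex] at h'
  rcases h' with h' | h'
  · exact h'.le
  · exact h'.1.le

/-! ### The side systems -/

section Side

attribute [local instance] ordY

/-- The side system: time is the height of the base line. -/
def sideSys : Sys QP (Set.Ici (-4 / 5 : ℝ)) where
  alive b p := b.1 ≤ p.y
  up b p q h ha := ha.trans (ordY_le h)
  mono b b' p h ha := le_trans h ha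

noncomputable def kN (b : Set.Ici (-4 / 5 : ℝ)) (p : QP) : ℝ := p.x + √(1 - (p.y - b.1) ^ 2)

noncomputable def kW (b : Set.Ici (-4 / 5 : ℝ)) (p : QP) : ℝ := -p.x + √(1 - (p.y - b.1) ^ 2)

theorem side_conc (b b' : Set.Ici (-4 / 5 : ℝ)) (p q : QP) (hqp : q.y ≤ p.y) (hb : b' ≤ b)
    (ha : b.1 ≤ q.y) :
    √(1 - (p.y - b'.1) ^ 2) + √(1 - (q.y - b.1) ^ 2) ≤
      √(1 - (p.y - b.1) ^ 2) + √(1 - (q.y - b'.1) ^ 2) := by
  have hb' : b'.1 ≤ b.1 := hb
  have h1 : -4 / 5 ≤ b'.1 := b'.2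
  have h2 := p.hy
  have h3 := q.hy
  have h := four_pt 1 (q.y - b.1) (p.y - b.1) (b.1 - b'.1) (by linarith) (by linarith)
    (by nlinarith) (by nlinarith)
  have e1 : p.y - b.1 + (b.1 - b'.1) = p.y - b'.1 := by ring
  have e2 : q.y - b.1 + (b.1 - b'.1) = q.y - b'.1 := by ring
  rw [e1, e2] at h
  exact h

theorem isKey_kN : IsKey sideSys kN := by
  intro b b' p q hqp hb ha hk
  have h := side_conc b b' p q (ordY_le hqp.le) hb ha
  unfold kN at *
  linarith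

theorem isKey_kW : IsKey sideSys kW := by
  intro b b' p q hqp hb ha hk
  have h := side_conc b b' p q (ordY_le hqp.le) hb ha
  unfold kW at *
  linarith

theorem opp_side : Opp sideSys kN kW := by
  intro b p q hqp ha
  have h1 : q.y ≤ p.y := ordY_le hqp.le
  have ha' : b.1 ≤ q.y := ha
  have h2 : √(1 - (p.y - b.1) ^ 2) ≤ √(1 - (q.y - b.1) ^ 2) := by
    apply Real.sqrt_le_sqrt
    nlinarith
  unfold kN kW
  rcases le_total p.x q.x with h | h
  · left; linarith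
  · right; linarith

theorem NF_sub : NF ⊆ {A : Set QP | ∃ b c, A = rng sideSys kN b c} := by
  rintro A ⟨b, c, hb, -, rfl⟩
  exact ⟨⟨b, hb⟩, c, rfl⟩

theorem WF_sub : WF ⊆ {A : Set QP | ∃ b c, A = rng sideSys kW b c} := by
  rintro A ⟨b, c, hb, -, rfl⟩
  exact ⟨⟨b, hb⟩, -c, rfl⟩

theorem part_NW : Part NF WF :=
  (opp_part sideSys kN kW isKey_kN isKey_kW opp_side).mono NF_sub WF_sub

theorem part_NN : Part NF NF := by
  refine (partH sideSys kN isKey_kN).mono NF_sub ?_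
  intro A hA
  obtain ⟨b, c, rfl⟩ := NF_sub hA
  exact compat_self isKey_kN b c

theorem part_WW : Part WF WF := by
  refine (partH sideSys kW isKey_kW).mono WF_sub ?_
  intro A hA
  obtain ⟨b, c, rfl⟩ := WF_sub hA
  exact compat_self isKey_kW b c

end Side

/-! ### The top system -/

section Top

attribute [local instance] ordX

/-- The top system: time is the abscissa of the centre; everything is always alive. -/
def topSys : Sys QP (Set.Icc (-3 / 5 : ℝ) (7 / 10)) where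
  alive _ _ := True
  up _ _ _ _ _ := trivial
  mono _ _ _ _ _ := trivial

noncomputable def kT (c : Set.Icc (-3 / 5 : ℝ) (7 / 10)) (p : QP) : ℝ :=
  √(1 - (p.x - c.1) ^ 2) - p.y

theorem isKey_kT : IsKey topSys kT := by
  intro b b' p q hqp hb _ hk
  have hb' : b'.1 ≤ b.1 := hb
  have h0 : q.x ≤ p.x := ordX_le hqp.le
  have h1 : -3 / 5 ≤ b'.1 := b'.2.1
  have h1' : b.1 ≤ 7 / 10 := b.2.2
  have h2 := p.hx
  have h3 := q.hx
  have h := four_pt 1 (q.x - b.1) (p.x - b.1) (b.1 - b'.1) (by linarith) (by linarith)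
    (by nlinarith) (by nlinarith)
  have e1 : p.x - b.1 + (b.1 - b'.1) = p.x - b'.1 := by ring
  have e2 : q.x - b.1 + (b.1 - b'.1) = q.x - b'.1 := by ring
  rw [e1, e2] at h
  unfold kT at *
  linarith

theorem TF_sub : TF ⊆ {A : Set QP | ∃ b c, A = rng topSys kT b c} := by
  rintro A ⟨b, c, -, hc1, hc2, rfl⟩
  refine ⟨⟨c, hc1, hc2⟩, -b, ?_⟩
  ext p
  simp only [rng, Set.mem_ofPred_eq, topSys, kT, true_and]
  constructor <;> intro h <;> linarith

theorem part_TT : Part TF TF := by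
  refine (partH topSys kT isKey_kT).mono TF_sub ?_
  intro A hA
  obtain ⟨b, c, rfl⟩ := TF_sub hA
  exact compat_self isKey_kT b c

/-- Side ranges whose base line is below the cell. -/
def NF1 : Set (Set QP) := {A | ∃ b c : ℝ, -4 / 5 ≤ b ∧ b < 0 ∧ 1 / 20 ≤ c ∧
  A = {p | b ≤ p.y ∧ c ≤ p.x + √(1 - (p.y - b) ^ 2)}}

/-- High parts of side ranges whose base line meets the cell. -/
def NF2 : Set (Set QP) := {A | ∃ b c : ℝ, 0 ≤ b ∧ 1 / 20 ≤ c ∧
  A = {p | (b ≤ p.y ∧ c ≤ p.x + √(1 - (p.y - b) ^ 2)) ∧ p.x - p.y ≤ c - 1 - b}}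

/-- Low parts. -/
def NF3 : Set (Set QP) := {A | ∃ b κ : ℝ, A = {p | κ ≤ p.x - p.y ∧ b ≤ p.y}}

theorem compat_NF1 {A : Set QP} (hA : A ∈ NF1) : Compat topSys kT A := by
  obtain ⟨b, c, hb, hb0, hc, rfl⟩ := hA
  rintro s1 s3 q ⟨-, h1⟩ ⟨-, h3⟩ h3q hq1 ⟨t, -, ht1, ht3⟩ - -
  have x3 : s3.x ≤ q.x := ordX_le h3q.le
  have x1 : q.x ≤ s1.x := ordX_le hq1.le
  have g1 := s1.hx
  have g1' := s1.hy
  have g3 := s3.hx
  have g3' := s3.hy
  have gq := q.hx
  have gq' := q.hy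
  have t1 : -3 / 5 ≤ t.1 := t.2.1
  have t2 : t.1 ≤ 7 / 10 := t.2.2
  refine ⟨by linarith, ?_⟩
  -- membership in the disc
  have disc : ∀ s : QP, c ≤ s.x + √(1 - (s.y - b) ^ 2) →
      (s.x - c) ^ 2 ≤ 1 ∧ s.y - b ≤ √(1 - (s.x - c) ^ 2) := by
    intro s hs
    have k1 := s.hx
    have k2 := s.hy
    have k3 : (s.y - b) ^ 2 ≤ 81 / 100 := by nlinarith
    have k4 : 2 / 5 ≤ √(1 - (s.y - b) ^ 2) := by
      apply Real.le_sqrt_of_sq_le; nlinarith
    have k5 := Real.sq_sqrt (show (0 : ℝ) ≤ 1 - (s.y - b) ^ 2 by linarith)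
    have k6 : (s.x - c) ^ 2 ≤ 1 - (s.y - b) ^ 2 := by
      rw [← k5]
      apply sq_le_sq'
      · linarith
      · linarith
    refine ⟨by nlinarith [sq_nonneg (s.y - b)], ?_⟩
    apply Real.le_sqrt_of_sq_le
    linarith
  obtain ⟨c1, d1⟩ := disc s1 h1
  obtain ⟨c3, d3⟩ := disc s3 h3
  have cq : (q.x - c) ^ 2 ≤ 1 := by
    have := abs_le.1 ((sq_le_one_iff_abs_le_one _).1 c1)
    have := abs_le.1 ((sq_le_one_iff_abs_le_one _).1 c3)
    rw [sq_le_one_iff_abs_le_one, abs_le]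
    constructor <;> linarith
  have dq : q.y - b ≤ √(1 - (q.x - c) ^ 2) := by
    rcases le_total c t.1 with h | h
    · have e := four_pt 1 (q.x - t.1) (q.x - c) (s1.x - q.x) (by linarith) (by linarith)
        (by nlinarith) (by
          have e1 : q.x - c + (s1.x - q.x) = s1.x - c := by ring
          rw [e1]; exact c1)
      have e1 : q.x - c + (s1.x - q.x) = s1.x - c := by ring
      have e2 : q.x - t.1 + (s1.x - q.x) = s1.x - t.1 := by ring
      rw [e1, e2] at e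
      unfold kT at ht1
      linarith
    · have e := four_pt 1 (s3.x - c) (s3.x - t.1) (q.x - s3.x) (by linarith) (by linarith)
        c3 (by
          have e1 : s3.x - t.1 + (q.x - s3.x) = q.x - t.1 := by ring
          rw [e1]; nlinarith)
      have e1 : s3.x - c + (q.x - s3.x) = q.x - c := by ring
      have e2 : s3.x - t.1 + (q.x - s3.x) = q.x - t.1 := by ring
      rw [e1, e2] at e
      have ht3' := ht3 trivial
      unfold kT at ht3'
      linarith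
  -- back to the side form
  have k5 := Real.sq_sqrt (show (0 : ℝ) ≤ 1 - (q.x - c) ^ 2 by linarith)
  have k6 : (q.y - b) ^ 2 ≤ 1 - (q.x - c) ^ 2 := by
    rw [← k5]
    apply sq_le_sq'
    · have := Real.sqrt_nonneg (1 - (q.x - c) ^ 2); linarith
    · exact dq
  have k7 : c - q.x ≤ √(1 - (q.y - b) ^ 2) := by
    apply Real.le_sqrt_of_sq_le
    nlinarith
  linarith

theorem compat_NF2 {A : Set QP} (hA : A ∈ NF2) : Compat topSys kT A := by
  obtain ⟨b, c, hb0, hc, rfl⟩ := hA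
  rintro s1 s3 q ⟨⟨-, -⟩, h1'⟩ ⟨⟨h3b, h3⟩, -⟩ h3q hq1 ⟨t, -, -, ht3⟩ - ⟨e, -, he⟩
  have x3 : s3.x ≤ q.x := ordX_le h3q.le
  have x1 : q.x ≤ s1.x := ordX_le hq1.le
  have g1 := s1.hx
  have g1' := s1.hy
  have g3 := s3.hx
  have g3' := s3.hy
  have gq := q.hx
  have gq' := q.hy
  have t1 : -3 / 5 ≤ t.1 := t.2.1
  have t2 : t.1 ≤ 7 / 10 := t.2.2
  have e1 : -3 / 5 ≤ e.1 := e.2.1
  have e2 : e.1 ≤ 7 / 10 := e.2.2
  have ht3' := ht3 trivial
  have he' := he trivial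
  unfold kT at ht3' he'
  have l1 := sqrt_lip (s1.x - e.1) (q.x - e.1) (by rw [abs_le]; constructor <;> linarith)
    (by rw [abs_le]; constructor <;> linarith)
  have l3 := sqrt_lip (q.x - t.1) (s3.x - t.1) (by rw [abs_le]; constructor <;> linarith)
    (by rw [abs_le]; constructor <;> linarith)
  have a1 : |s1.x - e.1 - (q.x - e.1)| = s1.x - q.x := by
    rw [abs_of_nonneg] <;> linarith
  have a3 : |q.x - t.1 - (s3.x - t.1)| = q.x - s3.x := by
    rw [abs_of_nonneg] <;> linarith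
  rw [a1] at l1
  rw [a3] at l3
  -- (i)
  have hi : q.x - q.y ≤ c - 1 - b := by linarith
  -- (ii)
  have h3x : c - 1 ≤ s3.x := by
    have : √(1 - (s3.y - b) ^ 2) ≤ 1 := by
      exact Real.sqrt_le_iff.2 ⟨by norm_num, by nlinarith [sq_nonneg (s3.y - b)]⟩
    linarith
  have hii : b ≤ q.y := by linarith
  refine ⟨⟨hii, ?_⟩, hi⟩
  rcases le_total q.y s3.y with h | h
  · have : √(1 - (s3.y - b) ^ 2) ≤ √(1 - (q.y - b) ^ 2) := by
      apply Real.sqrt_le_sqrt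
      nlinarith
    linarith
  · have l4 := sqrt_lip (s3.y - b) (q.y - b) (by rw [abs_le]; constructor <;> linarith)
      (by rw [abs_le]; constructor <;> linarith)
    have a4 : |s3.y - b - (q.y - b)| = q.y - s3.y := by
      rw [abs_of_nonpos] <;> linarith
    rw [a4] at l4
    linarith

theorem part_TN1 : Part TF NF1 :=
  (partH topSys kT isKey_kT).mono TF_sub (fun _ hA => compat_NF1 hA)

theorem part_TN2 : Part TF NF2 :=
  (partH topSys kT isKey_kT).mono TF_sub (fun _ hA => compat_NF2 hA)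

end Top

/-! ### The wedge system -/

section Wedge

attribute [local instance] ordU

/-- Left parts of top ranges. -/
def TL : Set (Set QP) := {A | ∃ b c : ℝ, b ≤ -4 / 5 ∧ -3 / 5 ≤ c ∧ c ≤ 7 / 10 ∧
  A = {p | p.y ≤ b + √(1 - (p.x - c) ^ 2) ∧ p.x - p.y ≤ c - (b + 1)}}

/-- Right parts of top ranges. -/
def TR : Set (Set QP) := {A | ∃ b c : ℝ, b ≤ -4 / 5 ∧ -3 / 5 ≤ c ∧ c ≤ 7 / 10 ∧
  A = {p | p.y ≤ b + √(1 - (p.x - c) ^ 2) ∧ c - (b + 1) ≤ p.x - p.y}}

/-- The wedge system: age is the difference of the coordinates. -/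
def wedgeSys : Sys QP (Set.Ici (-4 / 5 : ℝ)) where
  alive κ p := κ.1 ≤ p.x - p.y
  up b p q h ha := ha.trans (ordU_le h)
  mono b b' p h ha := le_trans h ha

def kL (_ : Set.Ici (-4 / 5 : ℝ)) (p : QP) : ℝ := p.y

/-- The curved gap function. -/
noncomputable def gap (w : ℝ) : ℝ := ((1 + w) - √(2 - (1 - w) ^ 2)) / 2

noncomputable def kR (κ : Set.Ici (-4 / 5 : ℝ)) (p : QP) : ℝ := -(p.y + gap (p.x - p.y - κ.1))

theorem isKey_kL : IsKey wedgeSys kL := by
  intro b b' p q _ _ _ hk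
  exact hk

theorem isKey_kR : IsKey wedgeSys kR := by
  intro b b' p q hqp hb ha hk
  have hb' : b'.1 ≤ b.1 := hb
  have h0 : q.x - q.y ≤ p.x - p.y := ordU_le hqp.le
  have h1 : -4 / 5 ≤ b'.1 := b'.2
  have ha' : b.1 ≤ q.x - q.y := ha
  have h2 := p.hx
  have h3 := q.hx
  have h2' := p.hy
  have h3' := q.hy
  have h := four_pt 2 (1 - (p.x - p.y - b'.1)) (1 - (q.x - q.y - b'.1)) (b.1 - b'.1)
    (by linarith) (by linarith) (by nlinarith) (by nlinarith)
  have e1 : 1 - (q.x - q.y - b'.1) + (b.1 - b'.1) = 1 - (q.x - q.y - b.1) := by ring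
  have e2 : 1 - (p.x - p.y - b'.1) + (b.1 - b'.1) = 1 - (p.x - p.y - b.1) := by ring
  rw [e1, e2] at h
  unfold kR gap at *
  linarith

theorem gap_mono (v w : ℝ) (hv : 0 ≤ v) (hvw : v ≤ w) (hw : w ≤ 1) : gap v ≤ gap w := by
  unfold gap
  have h : √(2 - (1 - w) ^ 2) ≤ (w - v) + √(2 - (1 - v) ^ 2) := by
    have k1 : 1 ≤ √(2 - (1 - v) ^ 2) := by
      apply Real.le_sqrt_of_sq_le; nlinarith
    have k2 := Real.sq_sqrt (show (0 : ℝ) ≤ 2 - (1 - v) ^ 2 by nlinarith)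
    apply Real.sqrt_le_iff.2
    refine ⟨by linarith, ?_⟩
    nlinarith [mul_nonneg (sub_nonneg.2 hvw) (sub_nonneg.2 k1),
      mul_nonneg (sub_nonneg.2 hvw) (sub_nonneg.2 hw)]
  linarith

theorem opp_wedge : Opp wedgeSys kL kR := by
  intro b p q hqp ha
  have h1 : q.x - q.y ≤ p.x - p.y := ordU_le hqp.le
  have ha' : b.1 ≤ q.x - q.y := ha
  have hb : -4 / 5 ≤ b.1 := b.2
  have h2 := p.hx
  have h2' := p.hy
  rcases le_total p.y q.y with h | h
  · left; exact h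
  · right
    unfold kR
    have := gap_mono (q.x - q.y - b.1) (p.x - p.y - b.1) (by linarith) (by linarith) (by linarith)
    linarith

theorem NF3_sub : NF3 ⊆ {A : Set QP | ∃ b c, A = rng wedgeSys kL b c} := by
  rintro A ⟨b, κ, rfl⟩
  refine ⟨⟨max κ (-4 / 5), (le_max_right κ (-4 / 5) : -4 / 5 ≤ max κ (-4 / 5))⟩, b, ?_⟩
  ext p
  have h1 := p.hx
  have h2 := p.hy
  simp only [rng, Set.mem_ofPred_eq, wedgeSys, kL]
  constructor
  · rintro ⟨h3, h4⟩
    exact ⟨max_le h3 (by linarith), h4⟩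
  · rintro ⟨h3, h4⟩
    exact ⟨(le_max_left _ _).trans h3, h4⟩

theorem TR_sub : TR ⊆ {A : Set QP | ∃ b c, A = rng wedgeSys kR b c} := by
  rintro A ⟨b, c, hb, hc1, hc2, rfl⟩
  refine ⟨⟨c - (b + 1), ?_⟩, -(b + 1), ?_⟩
  · show -4 / 5 ≤ c - (b + 1)
    linarith
  ext p
  have h1 := p.hx
  have h2 := p.hy
  simp only [rng, Set.mem_ofPred_eq, wedgeSys, kR]
  rw [and_comm]
  apply and_congr_right
  intro hu
  set w := p.x - p.y - (c - (b + 1)) with hw
  have hw0 : 0 ≤ w := by linarith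
  have hw1 : w ≤ 9 / 10 + (b + 1 + (-1) / 5) + (-3 / 5 - c) + 1 := by
    rw [hw]; linarith
  have hxc : p.x - c = w - (b + 1 - p.y) := by rw [hw]; ring
  have hyb : p.y - b = 1 - (b + 1 - p.y) := by ring
  have hd : b + 1 - p.y ≤ 1 / 5 := by linarith
  set d := b + 1 - p.y with hdd
  have hwle : w ≤ 1 := by
    rw [hw]
    linarith
  have k0 : (0 : ℝ) ≤ 2 - (1 - w) ^ 2 := by nlinarith
  have k1 := Real.sq_sqrt k0
  have k2 := Real.sqrt_nonneg (2 - (1 - w) ^ 2)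
  have k3 : 1 ≤ √(2 - (1 - w) ^ 2) := by
    apply Real.le_sqrt_of_sq_le; nlinarith
  unfold gap
  rw [hxc]
  constructor
  · intro h
    have h4 : 1 - d ≤ √(1 - (w - d) ^ 2) := by linarith
    have h5 : 0 ≤ 1 - (w - d) ^ 2 := by
      by_contra hneg
      push Not at hneg
      rw [Real.sqrt_eq_zero_of_nonpos hneg.le] at h4
      linarith
    have h6 := Real.sq_sqrt h5
    have h7 : (1 - d) ^ 2 ≤ 1 - (w - d) ^ 2 := by
      rw [← h6]
      apply sq_le_sq'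
      · linarith
      · exact h4
    -- ((1+w) - 2d)^2 ≤ 2 - (1-w)^2
    have h8 : ((1 + w) - 2 * d) ^ 2 ≤ 2 - (1 - w) ^ 2 := by nlinarith
    have h9 : (1 + w) - 2 * d ≤ √(2 - (1 - w) ^ 2) := Real.le_sqrt_of_sq_le h8
    linarith
  · intro h
    have h9 : (1 + w) - 2 * d ≤ √(2 - (1 - w) ^ 2) := by linarith
    have h8 : ((1 + w) - 2 * d) ^ 2 ≤ 2 - (1 - w) ^ 2 := by
      rw [← k1]
      apply sq_le_sq'
      · linarith
      · exact h9
    have h7 : (1 - d) ^ 2 ≤ 1 - (w - d) ^ 2 := by nlinarith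
    have h4 : 1 - d ≤ √(1 - (w - d) ^ 2) := Real.le_sqrt_of_sq_le h7
    linarith

theorem compat_TL {A : Set QP} (hA : A ∈ TL) : Compat wedgeSys kL A := by
  obtain ⟨b, c, hb, hc1, hc2, rfl⟩ := hA
  rintro s1 s3 q ⟨-, h1⟩ ⟨h3, h3'⟩ h3q hq1 - ⟨e, he1, he2⟩ -
  have u3 : s3.x - s3.y ≤ q.x - q.y := ordU_le h3q.le
  have u1 : q.x - q.y ≤ s1.x - s1.y := ordU_le hq1.le
  have hy : q.y ≤ s3.y := he2 (le_trans he1 u3)
  have g3 := s3.hx
  have g3' := s3.hy
  have gq := q.hx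
  have gq' := q.hy
  refine ⟨?_, u1.trans h1⟩
  have h5 : 0 ≤ 1 - (s3.x - c) ^ 2 := by nlinarith
  have h6 := Real.sq_sqrt h5
  have h7 : (s3.y - b) ^ 2 ≤ 1 - (s3.x - c) ^ 2 := by
    rw [← h6]
    apply sq_le_sq'
    · have := Real.sqrt_nonneg (1 - (s3.x - c) ^ 2); linarith
    · linarith
  have h8 : s3.y ≤ b + 1 := by
    have : √(1 - (s3.x - c) ^ 2) ≤ 1 := by
      exact Real.sqrt_le_iff.2 ⟨by norm_num, by nlinarith [sq_nonneg (s3.x - c)]⟩
    linarith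
  have key : (q.y - b) ^ 2 ≤ 1 - (q.x - c) ^ 2 := by
    have p1 : 0 ≤ (q.x - q.y) - (s3.x - s3.y) := by linarith
    have p2 : 0 ≤ s3.y - q.y := by linarith
    have p3 : 0 ≤ c - (b + 1) - (q.x - q.y) := by linarith
    have p4 : 0 ≤ b + 1 - s3.y := by linarith
    have p5 : 0 ≤ 1 - (c - (b + 1) - (q.x - q.y)) - (b + 1 - s3.y) - (b + 1 - q.y) := by linarith
    nlinarith [mul_nonneg p1 p3, mul_nonneg p1 p4, mul_nonneg p2 p5, mul_nonneg p1 p1]
  have := Real.le_sqrt_of_sq_le key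
  linarith

theorem part_TN3 : Part TF NF3 := by
  apply Part.symm
  have h1 : Part NF3 TL :=
    (partH wedgeSys kL isKey_kL).mono NF3_sub (fun _ hA => compat_TL hA)
  have h2 : Part NF3 TR :=
    (opp_part wedgeSys kL kR isKey_kL isKey_kR opp_wedge).mono NF3_sub TR_sub
  refine h1.pieces h2 ?_
  rintro B ⟨b, c, hb, hc1, hc2, rfl⟩
  refine ⟨_, ⟨b, c, hb, hc1, hc2, rfl⟩, _, ⟨b, c, hb, hc1, hc2, rfl⟩, ?_, ?_, ?_⟩
  · intro p hp; exact hp.1
  · intro p hp; exact hp.1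
  · intro p hp
    rcases le_total (p.x - p.y) (c - (b + 1)) with h | h
    · exact Or.inl ⟨hp, h⟩
    · exact Or.inr ⟨hp, h⟩

end Wedge

theorem part_TN : Part TF NF := by
  have h23 : Part TF {A : Set QP | ∃ b c : ℝ, 0 ≤ b ∧ 1 / 20 ≤ c ∧
      A = {p | b ≤ p.y ∧ c ≤ p.x + √(1 - (p.y - b) ^ 2)}} := by
    refine part_TN2.pieces part_TN3 ?_
    rintro B ⟨b, c, hb, hc, rfl⟩
    refine ⟨_, ⟨b, c, hb, hc, rfl⟩, _, ⟨b, c - 1 - b, rfl⟩, ?_, ?_, ?_⟩
    · intro p hp; exact hp.1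
    · rintro p ⟨h1, h2⟩
      have g1 := p.hy
      refine ⟨h2, ?_⟩
      have : 1 - (p.y - b) ≤ √(1 - (p.y - b) ^ 2) := by
        apply Real.le_sqrt_of_sq_le
        nlinarith
      linarith
    · intro p hp
      rcases le_total (p.x - p.y) (c - 1 - b) with h | h
      · exact Or.inl ⟨hp, h⟩
      · exact Or.inr ⟨h, hp.1⟩
  refine (part_TN1.union h23).mono le_rfl ?_
  rintro A ⟨b, c, hb, hc, rfl⟩
  rcases lt_or_ge b 0 with h | h
  · exact Or.inl ⟨b, c, hb, h, hc, rfl⟩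
  · exact Or.inr ⟨b, c, h, hc, rfl⟩

/-! ### Mirror image -/

/-- The mirror image of a point of the cell. -/
noncomputable def QP.mir (p : QP) : QP :=
  ⟨1 / 10 - p.x, p.y, ⟨by linarith [p.hx.2], by linarith [p.hx.1]⟩, p.hy⟩

theorem QP.mir_mir (p : QP) : p.mir.mir = p := by
  apply QP.ext'
  · simp [QP.mir]
  · rfl

theorem QP.mir_inj : Function.Injective QP.mir := fun p q h => by
  rw [← p.mir_mir, h, q.mir_mir]

theorem Many.mir {X : Finset QP} {A : Set QP} {k : ℕ} [DecidableEq QP] :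
    Many (X.image QP.mir) (QP.mir ⁻¹' A) k ↔ Many X A k := by
  have key : ∀ (X : Finset QP) (A : Set QP), Many X A k →
      Many (X.image QP.mir) (QP.mir ⁻¹' A) k := by
    rintro X A ⟨G, hG, hc⟩
    refine ⟨G.image QP.mir, ?_, ?_⟩
    · intro p hp
      obtain ⟨q, hq, rfl⟩ := Finset.mem_image.1 hp
      refine ⟨Finset.mem_image_of_mem _ (hG q hq).1, ?_⟩
      show q.mir.mir ∈ A
      rw [QP.mir_mir]
      exact (hG q hq).2
    · rw [Finset.card_image_of_injective _ QP.mir_inj]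
      exact hc
  constructor
  · intro h
    have h2 := key _ _ h
    refine h2.mono ?_ le_rfl
    intro p hp hpA
    constructor
    · obtain ⟨q, hq, rfl⟩ := Finset.mem_image.1 hp
      obtain ⟨r, hr, rfl⟩ := Finset.mem_image.1 hq
      rw [QP.mir_mir]
      exact hr
    · have : p.mir.mir ∈ A := hpA
      rw [QP.mir_mir] at this
      exact this
  · exact key X A

theorem Part.mir {𝒜 ℬ : Set (Set QP)} (h : Part 𝒜 ℬ) :
    Part {A | ∃ A' ∈ 𝒜, A = QP.mir ⁻¹' A'} {B | ∃ B' ∈ ℬ, B = QP.mir ⁻¹' B'} := by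
  classical
  intro k
  obtain ⟨M, hM⟩ := h k
  refine ⟨M, fun X => ?_⟩
  obtain ⟨Y, Y', h1, h2, h3, h4⟩ := hM (X.image QP.mir)
  have hX : (X.image QP.mir).image QP.mir = X := by
    ext p
    simp only [Finset.mem_image]
    constructor
    · rintro ⟨q, ⟨r, hr, rfl⟩, rfl⟩
      rw [QP.mir_mir]; exact hr
    · intro hp
      exact ⟨p.mir, ⟨p, hp, rfl⟩, p.mir_mir⟩
  refine ⟨Y.image QP.mir, Y'.image QP.mir, ?_, ?_, ?_, ?_⟩
  · intro x hx hx'
    obtain ⟨q, hq, rfl⟩ := Finset.mem_image.1 hx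
    obtain ⟨r, hr, he⟩ := Finset.mem_image.1 hx'
    exact h1 q hq (QP.mir_inj he ▸ hr)
  · intro x
    constructor
    · intro hx
      rcases (h2 x.mir).1 (Finset.mem_image_of_mem _ hx) with h | h
      · left; exact Finset.mem_image.2 ⟨_, h, x.mir_mir⟩
      · right; exact Finset.mem_image.2 ⟨_, h, x.mir_mir⟩
    · intro hx
      rw [← hX]
      rcases hx with h | h
      · obtain ⟨q, hq, rfl⟩ := Finset.mem_image.1 h
        exact Finset.mem_image_of_mem _ ((h2 q).2 (Or.inl hq))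
      · obtain ⟨q, hq, rfl⟩ := Finset.mem_image.1 h
        exact Finset.mem_image_of_mem _ ((h2 q).2 (Or.inr hq))
  · rintro A ⟨A', hA', rfl⟩ hm
    rw [Many.mir]
    apply h3 A' hA'
    rw [← hX, Many.mir] at hm
    exact hm
  · rintro A ⟨A', hA', rfl⟩ hm
    rw [Many.mir]
    apply h4 A' hA'
    rw [← hX, Many.mir] at hm
    exact hm

theorem part_TW : Part TF WF := by
  refine part_TN.mir.mono ?_ ?_
  · rintro A ⟨b, c, hb, hc1, hc2, rfl⟩
    refine ⟨_, ⟨b, 1 / 10 - c, hb, by linarith, by linarith, rfl⟩, ?_⟩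
    ext p
    simp only [Set.mem_ofPred_eq, Set.mem_preimage, QP.mir]
    have : (1 / 10 - p.x - (1 / 10 - c)) ^ 2 = (p.x - c) ^ 2 := by ring
    rw [this]
  · rintro A ⟨b, c, hb, hc, rfl⟩
    refine ⟨_, ⟨b, 1 / 10 - c, hb, by linarith, rfl⟩, ?_⟩
    ext p
    simp only [Set.mem_ofPred_eq, Set.mem_preimage, QP.mir]
    constructor
    · rintro ⟨h1, h2⟩; exact ⟨h1, by linarith⟩
    · rintro ⟨h1, h2⟩; exact ⟨h1, by linarith⟩

/-- The cell theorem. -/
theorem cell_colourable : Colourable (TF ∪ NF ∪ WF) :=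
  colourable_of_three part_TT part_NN part_WW part_TN part_TW part_NW

end Pool.Agent.Lib.MP_731221_co
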