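import Mathlib

namespace Pool.Agent.Lib.MP_731221_co

/-- Greedy selection of indices. -/
theorem greedy_sel {α ι : Type*} [LinearOrder ι] (F : ι → Finset α) (c : ι → α)
    (hc : ∀ i, c i ∈ F i) (I : Finset ι) :
    ∃ J ⊆ I, (∀ i ∈ J, ∀ j ∈ J, i < j → c i ∉ F j) ∧ (∀ i ∈ I, ∃ j ∈ J, j ≤ i ∧ c j ∈ F i) := by
  classical
  induction I using Finset.induction_on_max with
  | empty => exact ⟨∅, le_rfl, by simp, by simp⟩
  | insert a I ha ih =>
    obtain ⟨J, hJ, h1, h2⟩ := ih
    by_cases h : ∃ j ∈ J, c j ∈ F a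
    · obtain ⟨j, hj, hja⟩ := h
      refine ⟨J, hJ.trans (Finset.subset_insert _ _), h1, ?_⟩
      intro i hi
      rcases Finset.mem_insert.1 hi with rfl | hi
      · exact ⟨j, hj, (ha j (hJ hj)).le, hja⟩
      · exact h2 i hi
    · push Not at h
      refine ⟨insert a J, Finset.insert_subset_insert _ hJ, ?_, ?_⟩
      · intro i hi j hj hij
        rcases Finset.mem_insert.1 hj with rfl | hj
        · rcases Finset.mem_insert.1 hi with rfl | hi
          · exact absurd hij (lt_irrefl _)
          · exact h i hi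
        · rcases Finset.mem_insert.1 hi with hia | hi
          · exact absurd (ha j (hJ hj)) (not_lt.2 (hia ▸ hij).le)
          · exact h1 i hi j hj hij
      · intro i hi
        rcases Finset.mem_insert.1 hi with rfl | hi
        · exact ⟨i, Finset.mem_insert_self _ _, le_rfl, hc i⟩
        · obtain ⟨j, hj, hji, hjF⟩ := h2 i hi
          exact ⟨j, Finset.mem_insert_of_mem hj, hji, hjF⟩

/-- Choice of an element with lexicographically maximal future membership, ties broken in
favour of the smallest. -/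
theorem exists_lexmax {α ι : Type*} [LinearOrder α] [LinearOrder ι] [Finite ι]
    (F : ι → Finset α) (i : ι) (G : Finset α) (hG : G ⊆ F i) (hne : G.Nonempty) :
    ∃ c ∈ G, ∀ p ∈ G,
      (∃ k, i < k ∧ c ∈ F k ∧ p ∉ F k ∧ ∀ j, i ≤ j → j < k → (p ∈ F j ↔ c ∈ F j)) ∨
      ((∀ j, i ≤ j → (p ∈ F j ↔ c ∈ F j)) ∧ c ≤ p) := by
  classical
  let v : α → ι → Bool := fun p j => decide (i ≤ j ∧ p ∈ F j)
  let f : α → (Lex (ι → Bool)) ×ₗ αᵒᵈ := fun p => toLex (toLex (v p), OrderDual.toDual p)
  obtain ⟨c, hc, hmax⟩ := G.exists_max_image f hne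
  refine ⟨c, hc, fun p hp => ?_⟩
  have h := hmax p hp
  rw [Prod.Lex.toLex_le_toLex] at h
  rcases h with h | ⟨h, h'⟩
  · left
    obtain ⟨k, hk1, hk2⟩ := h
    have hk2' : v p k < v c k := hk2
    have hk1' : ∀ j, j < k → v p j = v c j := hk1
    have hlt : v p k = false ∧ v c k = true := by
      revert hk2'
      generalize v p k = a
      generalize v c k = b
      revert a b
      decide
    have hck : i ≤ k ∧ c ∈ F k := by simpa [v] using hlt.2
    have hpk : ¬ (i ≤ k ∧ p ∈ F k) := by
      have := hlt.1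
      simpa [v] using this
    have hpk' : p ∉ F k := fun h' => hpk ⟨hck.1, h'⟩
    have hik : i < k := lt_of_le_of_ne hck.1 (fun h' => hpk' (h' ▸ hG hp))
    refine ⟨k, hik, hck.2, hpk', ?_⟩
    intro j hij hjk
    have := hk1' j hjk
    simp only [v, decide_eq_decide, hij, true_and] at this
    exact this
  · right
    have hv : v p = v c := h
    refine ⟨?_, h'⟩
    intro j hij
    have := congrFun hv j
    simp only [v, decide_eq_decide, hij, true_and] at this
    exact this

theorem greedy {α ι : Type*} [LinearOrder α] [LinearOrder ι] [Fintype ι]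
    (F : ι → Finset α) (fol : ι → α → α → Prop) [∀ i p, DecidablePred (fol i p)] (m K g : ℕ)
    (hm : ∀ i, (F i).card = m) (hg : g < m)
    (hfol : ∀ i p q, fol i p q → q < p)
    (hN2 : ∀ i j, i < j → ∀ p ∈ F i, p ∉ F j → ∀ q ∈ F j, q ∉ F i → q < p)
    (hY : ∀ i, ∀ s ∈ F i, ∀ u ∈ F i, u < s → fol i s u ∨ ∀ j, i ≤ j → s ∈ F j → u ∈ F j)
    (hbad : ∀ i, ((F i).filter (fun p => ((F i).filter (fol i p)).card < K)).card ≤ g) :
    ∃ H : Finset α, (∀ x ∈ H, ∃ i, x ∈ F i) ∧ (∀ i, ∃ x ∈ H, x ∈ F i) ∧
      ∀ (B : Finset α) (L : Set α) (late : ι → Prop), (∀ i j, i ≤ j → late i → late j) →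
        (∀ p ∈ B, ∀ q, q ∉ L → q < p) →
        (∀ i, ¬ late i → ∀ p ∈ B, ∀ q ∈ F i, fol i p q → q ∈ B) →
        (∀ i, late i → ∀ s ∈ F i, s ∈ B → ∀ q, q ∈ L → q < s → (∃ j, q ∈ F j) →
          q ∈ F i ∨ q ∈ B) →
        B.card ≤ (B \ H).card + 2 ∨ K ≤ (B \ H).card + 2 ∨ m ≤ (B \ H).card + 6 * g + K + 1 := by
  classical
  set bad : ι → Finset α := fun i => (F i).filter (fun p => ((F i).filter (fol i p)).card < K)
    with hbaddef
  have hbad' : ∀ i, (bad i).card ≤ g := hbad
  have hmemgood : ∀ i p, p ∈ F i \ bad i ↔ p ∈ F i ∧ K ≤ ((F i).filter (fol i p)).card := by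
    intro i p
    simp only [hbaddef, Finset.mem_sdiff, Finset.mem_filter, not_and, not_lt]
    constructor
    · rintro ⟨h1, h2⟩
      exact ⟨h1, h2 h1⟩
    · rintro ⟨h1, h2⟩
      exact ⟨h1, fun _ => h2⟩
  have hgood : ∀ i, (F i \ bad i).Nonempty := by
    intro i
    rw [← Finset.card_pos]
    have h1 := Finset.le_card_sdiff (bad i) (F i)
    have h2 := hbad' i
    have h3 := hm i
    omega
  have hch : ∀ i, ∃ c ∈ F i \ bad i, ∀ p ∈ F i \ bad i,
      (∃ k, i < k ∧ c ∈ F k ∧ p ∉ F k ∧ ∀ j, i ≤ j → j < k → (p ∈ F j ↔ c ∈ F j)) ∨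
      ((∀ j, i ≤ j → (p ∈ F j ↔ c ∈ F j)) ∧ c ≤ p) :=
    fun i => exists_lexmax F i _ Finset.sdiff_subset (hgood i)
  choose c hcg hcmax using hch
  have hcF : ∀ i, c i ∈ F i := fun i => (Finset.mem_sdiff.1 (hcg i)).1
  obtain ⟨J, -, hJ1, hJ2⟩ := greedy_sel F c hcF Finset.univ
  have hJ2' : ∀ i, ∃ j ∈ J, j ≤ i ∧ c j ∈ F i := fun i => hJ2 i (Finset.mem_univ i)
  -- the basic domination lemma
  have hV : ∀ k l v, k < l → c l ∉ F k → v ∈ F k → v < c l → v ∈ bad l := by
    intro k l v hkl hclk hvk hvc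
    have hvl : v ∈ F l := by
      by_contra hvl
      exact absurd (hN2 k l hkl v hvk hvl (c l) (hcF l) hclk) (not_lt.2 hvc.le)
    by_contra hvb
    rcases hcmax l v (Finset.mem_sdiff.2 ⟨hvl, hvb⟩) with ⟨k1, hk1, h1, h2, -⟩ | ⟨-, h⟩
    · exact absurd (hN2 k k1 (hkl.trans hk1) v hvk h2 (c l) h1 hclk) (not_lt.2 hvc.le)
    · exact absurd h (not_le.2 hvc)
  -- the second lemma
  have hW : ∀ j ∈ J, ∀ l ∈ J, j < l → c l ∈ F j \ bad j →
      ((F j).filter (fun q => q ≤ c l)).card ≤ 2 * g := by
    intro j hj l hl hjl hclj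
    have hcjl : c j ∉ F l := hJ1 j hj l hl hjl
    have hclF : c l ∈ F j := (Finset.mem_sdiff.1 hclj).1
    rcases hcmax j (c l) hclj with ⟨k, hjk, h1, h2, h3⟩ | ⟨h, -⟩
    · have hkl : k < l := by
        rcases lt_trichotomy k l with h | h | h
        · exact h
        · exact absurd (h ▸ hcF l) h2
        · exact absurd ((h3 l hjl.le h).1 (hcF l)) hcjl
      have hVc : ((F k).filter (fun v => v < c l)).card ≤ g := by
        refine (Finset.card_le_card ?_).trans (hbad' l)
        intro v hv
        obtain ⟨hv1, hv2⟩ := Finset.mem_filter.1 hv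
        exact hV k l v hkl h2 hv1 hv2
      have hsub : F k \ F j ⊆ (F k).filter (fun v => v < c l) := by
        intro v hv
        obtain ⟨hv1, hv2⟩ := Finset.mem_sdiff.1 hv
        exact Finset.mem_filter.2 ⟨hv1, hN2 j k hjk (c l) hclF h2 v hv1 hv2⟩
      have hcd : (F j \ F k).card ≤ g := by
        rw [Finset.card_sdiff_comm (by rw [hm, hm])]
        exact (Finset.card_le_card hsub).trans hVc
      have hsub2 : (F j).filter (fun q => q ≤ c l) ⊆
          ((F k).filter (fun v => v < c l)) ∪ (F j \ F k) := by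
        intro q hq
        obtain ⟨hq1, hq2⟩ := Finset.mem_filter.1 hq
        by_cases hqk : q ∈ F k
        · refine Finset.mem_union_left _ (Finset.mem_filter.2 ⟨hqk, ?_⟩)
          exact lt_of_le_of_ne hq2 (fun h' => h2 (h' ▸ hqk))
        · exact Finset.mem_union_right _ (Finset.mem_sdiff.2 ⟨hq1, hqk⟩)
      have := (Finset.card_le_card hsub2).trans (Finset.card_union_le _ _)
      omega
    · exact absurd ((h l hjl.le).1 (hcF l)) hcjl
  refine ⟨J.image c, ?_, ?_, ?_⟩
  · intro x hx
    obtain ⟨j, hj, rfl⟩ := Finset.mem_image.1 hx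
    exact ⟨j, hcF j⟩
  · intro i
    obtain ⟨j, hj, -, hji⟩ := hJ2' i
    exact ⟨c j, Finset.mem_image_of_mem _ hj, hji⟩
  intro B L late hlate hL hH1 hH3
  set H := J.image c with hHdef
  set JL := J.filter (fun j => late j ∧ c j ∈ B) with hJL
  by_cases hcase : JL.card ≤ 2
  · -- few late selected points
    by_cases hE : (J.filter (fun j => ¬ late j ∧ c j ∈ B)).Nonempty
    · right; left
      obtain ⟨j, hj, hmin⟩ := Finset.exists_min_image _ c hE
      obtain ⟨hjJ, hjl, hjB⟩ := Finset.mem_filter.1 hj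
      have hK : K ≤ ((F j).filter (fol j (c j))).card := ((hmemgood j (c j)).1 (hcg j)).2
      have hfB : ∀ q ∈ (F j).filter (fol j (c j)), q ∈ B := by
        intro q hq
        obtain ⟨hq1, hq2⟩ := Finset.mem_filter.1 hq
        exact hH1 j hjl (c j) hjB q hq1 hq2
      have h1 : ((F j).filter (fol j (c j))) ∩ H ⊆ JL.image c := by
        intro q hq
        obtain ⟨hq1, hq2⟩ := Finset.mem_inter.1 hq
        obtain ⟨k, hk, rfl⟩ := Finset.mem_image.1 hq2
        have hqB := hfB _ hq1
        refine Finset.mem_image_of_mem _ (Finset.mem_filter.2 ⟨hk, ?_, hqB⟩)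
        by_contra hkl
        have h3 := hmin k (Finset.mem_filter.2 ⟨hk, hkl, hqB⟩)
        have h4 := hfol _ _ _ (Finset.mem_filter.1 hq1).2
        exact absurd h3 (not_le.2 h4)
      have h2 : ((F j).filter (fol j (c j))) \ H ⊆ B \ H := by
        intro q hq
        obtain ⟨hq1, hq2⟩ := Finset.mem_sdiff.1 hq
        exact Finset.mem_sdiff.2 ⟨hfB q hq1, hq2⟩
      have e1 := (Finset.card_le_card h1).trans Finset.card_image_le
      have e2 := Finset.card_le_card h2
      have e3 := Finset.card_sdiff_add_card_inter ((F j).filter (fol j (c j))) H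
      omega
    · left
      have h1 : B ∩ H ⊆ JL.image c := by
        intro q hq
        obtain ⟨hq1, hq2⟩ := Finset.mem_inter.1 hq
        obtain ⟨k, hk, rfl⟩ := Finset.mem_image.1 hq2
        refine Finset.mem_image_of_mem _ (Finset.mem_filter.2 ⟨hk, ?_, hq1⟩)
        by_contra hkl
        exact hE ⟨k, Finset.mem_filter.2 ⟨hk, hkl, hq1⟩⟩
      have e1 := (Finset.card_le_card h1).trans Finset.card_image_le
      have e3 := Finset.card_sdiff_add_card_inter B H
      omega
  · -- three late selected points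
    right; right
    push Not at hcase
    obtain ⟨U, hU, hUc⟩ := Finset.exists_subset_card_eq hcase
    set f := U.orderEmbOfFin hUc with hf
    have hfU : ∀ i, f i ∈ U := fun i => Finset.orderEmbOfFin_mem U hUc i
    have hmono : ∀ i j : Fin 3, i < j → f i < f j := fun i j hij => f.strictMono hij
    set i := f 0 with hi
    set j := f 1 with hj
    set l := f 2 with hl
    have hij : i < j := hmono 0 1 (by decide)
    have hjl : j < l := hmono 1 2 (by decide)
    obtain ⟨hiJ, hil, hiB⟩ := Finset.mem_filter.1 (hU (hfU 0))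
    obtain ⟨hjJ, hjl', hjB⟩ := Finset.mem_filter.1 (hU (hfU 1))
    obtain ⟨hlJ, hll, hlB⟩ := Finset.mem_filter.1 (hU (hfU 2))
    rw [← hi] at hil hiB hiJ
    rw [← hj] at hjl' hjB hjJ
    rw [← hl] at hll hlB hlJ
    -- Q set
    have hQ : ((F j).filter (fun q => q ∉ B ∧ q ∈ L)).card ≤ g := by
      refine (Finset.card_le_card ?_).trans (hbad' i)
      intro q hq
      obtain ⟨hqj, hqB, hqL⟩ := Finset.mem_filter.1 hq
      have hcij : c i ∉ F j := hJ1 i hiJ j hjJ hij
      have hqi : q ∈ F i := by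
        by_contra hqi
        have hlt := hN2 i j hij (c i) (hcF i) hcij q hqj hqi
        rcases hH3 i hil (c i) (hcF i) hiB q hqL hlt ⟨j, hqj⟩ with h | h
        · exact hqi h
        · exact hqB h
      by_contra hqb
      rcases hcmax i q (Finset.mem_sdiff.2 ⟨hqi, hqb⟩) with ⟨k, hik, h1, h2, h3⟩ | ⟨h, -⟩
      · have hkj : k < j := by
          rcases lt_trichotomy k j with h | h | h
          · exact h
          · exact absurd (h ▸ h1) hcij
          · exact absurd ((h3 j hij.le h).1 hqj) hcij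
        have hlt := hN2 k j hkj (c i) h1 hcij q hqj h2
        rcases hH3 k (hlate i k hik.le hil) (c i) h1 hiB q hqL hlt ⟨j, hqj⟩ with h | h
        · exact h2 h
        · exact hqB h
      · exact absurd ((h j hij.le).1 hqj) hcij
    -- U set
    have hUs : ((F j).filter (fun q => q ∉ L)).card ≤ 2 * g + K := by
      have hlt : ∀ q, q ∉ L → q < c l := fun q hq => hL (c l) hlB q hq
      by_cases hclj : c l ∈ F j
      · by_cases hclb : c l ∈ bad j
        · have hlt' : ((F j).filter (fol j (c l))).card < K := (Finset.mem_filter.1 hclb).2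
          have hsub : (F j).filter (fun q => q ∉ L) ⊆ (F j).filter (fol j (c l)) ∪ bad l := by
            intro q hq
            obtain ⟨hqj, hqL⟩ := Finset.mem_filter.1 hq
            have hqc := hlt q hqL
            rcases hY j (c l) hclj q hqj hqc with h | h
            · exact Finset.mem_union_left _ (Finset.mem_filter.2 ⟨hqj, h⟩)
            · refine Finset.mem_union_right _ ?_
              by_contra hqb
              have hql : q ∈ F l := h l hjl.le (hcF l)
              rcases hcmax l q (Finset.mem_sdiff.2 ⟨hql, hqb⟩) with ⟨k, hk, h1, h2, -⟩ | ⟨-, h'⟩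
              · exact h2 (h k (hjl.trans hk).le h1)
              · exact absurd h' (not_le.2 hqc)
          have e1 := (Finset.card_le_card hsub).trans (Finset.card_union_le _ _)
          have e2 := hbad' l
          omega
        · have h1 := hW j hjJ l hlJ hjl (Finset.mem_sdiff.2 ⟨hclj, hclb⟩)
          have hsub : (F j).filter (fun q => q ∉ L) ⊆ (F j).filter (fun q => q ≤ c l) := by
            intro q hq
            obtain ⟨hqj, hqL⟩ := Finset.mem_filter.1 hq
            exact Finset.mem_filter.2 ⟨hqj, (hlt q hqL).le⟩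
          have := Finset.card_le_card hsub
          omega
      · have hsub : (F j).filter (fun q => q ∉ L) ⊆ bad l := by
          intro q hq
          obtain ⟨hqj, hqL⟩ := Finset.mem_filter.1 hq
          exact hV j l q hjl hclj hqj (hlt q hqL)
        have e1 := Finset.card_le_card hsub
        have e2 := hbad' l
        omega
    -- selected points in F j
    have hSs : (F j ∩ H).card ≤ 3 * g + 1 := by
      set G := J.filter (fun k => j < k ∧ c k ∈ F j \ bad j) with hG
      have hb : F j ∩ H ⊆ insert (c j) (bad j ∪ G.image c) := by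
        intro q hq
        obtain ⟨hq1, hq2⟩ := Finset.mem_inter.1 hq
        obtain ⟨k, hk, rfl⟩ := Finset.mem_image.1 hq2
        rcases lt_trichotomy k j with h | h | h
        · exact absurd hq1 (hJ1 k hk j hjJ h)
        · rw [h]; exact Finset.mem_insert_self _ _
        · refine Finset.mem_insert_of_mem ?_
          by_cases hkb : c k ∈ bad j
          · exact Finset.mem_union_left _ hkb
          · exact Finset.mem_union_right _ (Finset.mem_image_of_mem _
              (Finset.mem_filter.2 ⟨hk, h, Finset.mem_sdiff.2 ⟨hq1, hkb⟩⟩))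
      have hGc : (G.image c).card ≤ 2 * g := by
        rcases G.eq_empty_or_nonempty with h0 | h0
        · simp [h0]
        · obtain ⟨l0, hl0, hmax0⟩ := G.exists_max_image c h0
          obtain ⟨hl0J, hl0j, hl0g⟩ := Finset.mem_filter.1 hl0
          refine (Finset.card_le_card ?_).trans (hW j hjJ l0 hl0J hl0j hl0g)
          intro q hq
          obtain ⟨k, hk, rfl⟩ := Finset.mem_image.1 hq
          exact Finset.mem_filter.2 ⟨(Finset.mem_sdiff.1 (Finset.mem_filter.1 hk).2.2).1,
            hmax0 k hk⟩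
      have e1 := (Finset.card_le_card hb).trans (Finset.card_insert_le _ _)
      have e2 := Finset.card_union_le (bad j) (G.image c)
      have e3 := hbad' j
      omega
    have hcov : F j ⊆ ((F j).filter (fun q => q ∉ B ∧ q ∈ L)) ∪ ((F j).filter (fun q => q ∉ L))
        ∪ (F j ∩ H) ∪ (B \ H) := by
      intro q hq
      simp only [Finset.mem_union, Finset.mem_filter, Finset.mem_inter, Finset.mem_sdiff]
      by_cases h1 : q ∈ B <;> by_cases h2 : q ∈ L <;> by_cases h3 : q ∈ H <;> simp [hq, h1, h2, h3]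
    have e0 := Finset.card_le_card hcov
    have e1 := Finset.card_union_le (((F j).filter (fun q => q ∉ B ∧ q ∈ L)) ∪
      ((F j).filter (fun q => q ∉ L)) ∪ (F j ∩ H)) (B \ H)
    have e2 := Finset.card_union_le (((F j).filter (fun q => q ∉ B ∧ q ∈ L)) ∪
      ((F j).filter (fun q => q ∉ L))) (F j ∩ H)
    have e3 := Finset.card_union_le ((F j).filter (fun q => q ∉ B ∧ q ∈ L))
      ((F j).filter (fun q => q ∉ L))
    have e4 := hm j
    omega

end Pool.Agent.Lib.MP_731221_co
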