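import Pool.Agent.Lib.MP_731221_co.Core

namespace Pool.Agent.Lib.MP_731221_co

/-- A ground set ordered by age (larger means older) with an aliveness relation:
as time decreases more elements are alive, and older elements become alive first. -/
structure Sys (α τ : Type*) [LinearOrder α] [LinearOrder τ] where
  alive : τ → α → Prop
  up : ∀ b p q, p ≤ q → alive b p → alive b q
  mono : ∀ b b' p, b' ≤ b → alive b p → alive b' p

variable {α τ : Type*} [LinearOrder α] [LinearOrder τ]

/-- The order at time `b`: larger key first, ties broken in favour of the younger. -/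
def ord (key : τ → α → ℝ) (b : τ) (p : α) : ℝ ×ₗ α := toLex (-key b p, p)

theorem ord_inj {key : τ → α → ℝ} {b : τ} {p q : α} (h : ord key b p = ord key b q) : p = q := by
  have := congrArg (fun z => (ofLex z).2) h
  simpa [ord] using this

theorem ord_lt_iff_of_lt {key : τ → α → ℝ} {b : τ} {p q : α} (h : q < p) :
    ord key b q < ord key b p ↔ key b p ≤ key b q := by
  unfold ord
  rw [Prod.Lex.toLex_lt_toLex]
  constructor
  · rintro (h1 | h1)
    · simp only at h1; linarith
    · simp only at h1; linarith [h1.1]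
  · intro h1
    rcases lt_or_eq_of_le h1 with h2 | h2
    · left; simp only; linarith
    · right; exact ⟨by simp only [h2], h⟩

theorem ord_lt_iff_of_gt {key : τ → α → ℝ} {b : τ} {p q : α} (h : p < q) :
    ord key b q < ord key b p ↔ key b p < key b q := by
  unfold ord
  rw [Prod.Lex.toLex_lt_toLex]
  constructor
  · rintro (h1 | h1)
    · simp only at h1; linarith
    · exact absurd h1.2 (by simpa using h.le)
  · intro h1
    left; simp only; linarith

/-- The overtaking condition: going back in time the younger stays ahead. -/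
def IsKey (S : Sys α τ) (key : τ → α → ℝ) : Prop :=
  ∀ b b' p q, q < p → b' ≤ b → S.alive b q → key b p ≤ key b q → key b' p ≤ key b' q

theorem IsKey.ord {S : Sys α τ} {key : τ → α → ℝ} (h : IsKey S key) {b b' : τ} {p q : α}
    (hqp : q < p) (hb : b' ≤ b) (ha : S.alive b q) (ho : ord key b q < ord key b p) :
    ord key b' q < ord key b' p := by
  rw [ord_lt_iff_of_lt hqp] at *
  exact h b b' p q hqp hb ha ho

/-- Contrapositive form. -/
theorem IsKey.ord' {S : Sys α τ} {key : τ → α → ℝ} (h : IsKey S key) {b b' : τ} {p q : α}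
    (hqp : q < p) (hb : b' ≤ b) (ha : S.alive b q)
    (ho : Pool.Agent.Lib.MP_731221_co.ord key b' p < Pool.Agent.Lib.MP_731221_co.ord key b' q) :
    Pool.Agent.Lib.MP_731221_co.ord key b p < Pool.Agent.Lib.MP_731221_co.ord key b q := by
  rcases lt_trichotomy (Pool.Agent.Lib.MP_731221_co.ord key b p)
    (Pool.Agent.Lib.MP_731221_co.ord key b q) with h1 | h1 | h1
  · exact h1
  · exact absurd (ord_inj h1) hqp.ne'
  · exact absurd (h.ord hqp hb ha h1) (not_lt.2 ho.le)

/-- `C` is an initial segment, at time `b`, of the alive elements of `Z`. -/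
def IsInit (S : Sys α τ) (key : τ → α → ℝ) (Z : Finset α) (b : τ) (C : Finset α) : Prop :=
  C ⊆ Z ∧ (∀ p ∈ C, S.alive b p) ∧
    ∀ p ∈ C, ∀ q ∈ Z, S.alive b q → ord key b q < ord key b p → q ∈ C

theorem IsInit.ahead {S : Sys α τ} {key : τ → α → ℝ} {Z : Finset α} {b : τ} {C : Finset α}
    (h : IsInit S key Z b C) {p q : α} (hp : p ∈ C) (hq : q ∈ Z) (hqa : S.alive b q)
    (hqC : q ∉ C) : ord key b p < ord key b q := by
  rcases lt_trichotomy (ord key b p) (ord key b q) with h1 | h1 | h1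
  · exact h1
  · exact absurd (ord_inj h1 ▸ hp) hqC
  · exact absurd (h.2.2 p hp q hq hqa h1) hqC

theorem IsInit.inter {S : Sys α τ} {key : τ → α → ℝ} {Z Y : Finset α} {b : τ} {C : Finset α}
    (h : IsInit S key Z b C) (hY : Y ⊆ Z) : IsInit S key Y b (C ∩ Y) := by
  refine ⟨Finset.inter_subset_right, fun p hp => h.2.1 p (Finset.mem_inter.1 hp).1, ?_⟩
  intro p hp q hq ha ho
  exact Finset.mem_inter.2 ⟨h.2.2 p (Finset.mem_inter.1 hp).1 q (hY hq) ha ho, hq⟩

theorem IsInit.sdiff {S : Sys α τ} {key : τ → α → ℝ} {Z Y : Finset α} {b : τ} {C : Finset α}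
    (h : IsInit S key Z b C) : IsInit S key (Z \ Y) b (C \ Y) := by
  refine ⟨fun p hp => ?_, fun p hp => h.2.1 p (Finset.mem_sdiff.1 hp).1, ?_⟩
  · exact Finset.mem_sdiff.2 ⟨h.1 (Finset.mem_sdiff.1 hp).1, (Finset.mem_sdiff.1 hp).2⟩
  intro p hp q hq ha ho
  exact Finset.mem_sdiff.2 ⟨h.2.2 p (Finset.mem_sdiff.1 hp).1 q (Finset.mem_sdiff.1 hq).1 ha ho,
    (Finset.mem_sdiff.1 hq).2⟩

theorem IsInit.exists_card {S : Sys α τ} {key : τ → α → ℝ} {Z : Finset α} {b : τ} {m : ℕ} :
    ∀ (n : ℕ) (C : Finset α), IsInit S key Z b C → C.card = m + n →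
      ∃ R ⊆ C, R.card = m ∧ IsInit S key Z b R := by
  intro n
  induction n with
  | zero => intro C hC hc; exact ⟨C, le_rfl, hc, hC⟩
  | succ n ih =>
    intro C hC hc
    have hne : C.Nonempty := Finset.card_pos.1 (by omega)
    obtain ⟨p, hp, hmax⟩ := C.exists_max_image (ord key b) hne
    obtain ⟨R, hR, hRc, hRi⟩ := ih (C.erase p) (by
      refine ⟨(Finset.erase_subset _ _).trans hC.1, fun q hq => hC.2.1 q (Finset.mem_of_mem_erase hq), ?_⟩
      intro p' hp' q hq ha ho
      refine Finset.mem_erase.2 ⟨?_, hC.2.2 p' (Finset.mem_of_mem_erase hp') q hq ha ho⟩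
      rintro rfl
      exact absurd (hmax p' (Finset.mem_of_mem_erase hp')) (not_le.2 ho)) (by
      rw [Finset.card_erase_of_mem hp]; omega)
    exact ⟨R, hR.trans (Finset.erase_subset _ _), hRc, hRi⟩

theorem IsInit.exists_sub {S : Sys α τ} {key : τ → α → ℝ} {Z : Finset α} {b : τ} {m : ℕ}
    {C : Finset α} (hC : IsInit S key Z b C) (hm : m ≤ C.card) :
    ∃ R ⊆ C, R.card = m ∧ IsInit S key Z b R :=
  IsInit.exists_card (C.card - m) C hC (by omega)

/-- A minimal hitting set consisting of leaders. -/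
structure HullMin (S : Sys α τ) (key : τ → α → ℝ) (Z : Finset α) (m : ℕ) (H : Finset α) :
    Prop where
  sub : H ⊆ Z
  hit : ∀ b C, IsInit S key Z b C → m ≤ C.card → ∃ s ∈ H, s ∈ C
  priv : ∀ s ∈ H, ∃ t R, IsInit S key Z t R ∧ R.card = m ∧ s ∈ R ∧ ∀ s' ∈ H, s' ∈ R → s' = s
  lead : ∀ s ∈ H, ∃ e, S.alive e s ∧ ∀ q ∈ Z, S.alive e q → ord key e s ≤ ord key e q

theorem exists_hullMin (S : Sys α τ) (key : τ → α → ℝ) (Z : Finset α) (m : ℕ) (hm : 1 ≤ m) :
    ∃ H, HullMin S key Z m H := by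
  classical
  let P : Finset α → Prop := fun H => H ⊆ Z ∧
    (∀ b C, IsInit S key Z b C → m ≤ C.card → ∃ s ∈ H, s ∈ C) ∧
    (∀ s ∈ H, ∃ e, S.alive e s ∧ ∀ q ∈ Z, S.alive e q → ord key e s ≤ ord key e q)
  have hP : ∃ H, P H := by
    refine ⟨Z.filter (fun s => ∃ e, S.alive e s ∧ ∀ q ∈ Z, S.alive e q →
      ord key e s ≤ ord key e q), Finset.filter_subset _ _, ?_, fun s hs => (Finset.mem_filter.1 hs).2⟩
    intro b C hC hc
    have hne : C.Nonempty := Finset.card_pos.1 (by omega)
    obtain ⟨p, hp, hmin⟩ := C.exists_min_image (ord key b) hne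
    refine ⟨p, Finset.mem_filter.2 ⟨hC.1 hp, b, hC.2.1 p hp, ?_⟩, hp⟩
    intro q hq ha
    by_contra hlt
    exact hlt (hmin q (hC.2.2 p hp q hq ha (not_le.1 hlt)))
  obtain ⟨H, hH⟩ := exists_minimal_of_wellFoundedLT P hP
  obtain ⟨⟨h1, h2, h3⟩, hmin⟩ := hH
  refine ⟨H, h1, h2, ?_, h3⟩
  intro s hs
  have hnot : ¬ P (H.erase s) := by
    intro hp
    have := hmin hp (Finset.erase_subset _ _)
    exact absurd (this hs) (Finset.notMem_erase s H)
  have : ∃ b C, IsInit S key Z b C ∧ m ≤ C.card ∧ ∀ s' ∈ H.erase s, s' ∉ C := by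
    by_contra hcon
    push Not at hcon
    exact hnot ⟨(Finset.erase_subset _ _).trans h1, fun b C hC hc => hcon b C hC hc,
      fun s' hs' => h3 s' (Finset.mem_of_mem_erase hs')⟩
  obtain ⟨b, C, hC, hc, hno⟩ := this
  obtain ⟨R, hRC, hRc, hR⟩ := hC.exists_sub hc
  obtain ⟨s', hs', hs'R⟩ := h2 b R hR hRc.ge
  have hss : s' = s := by
    by_contra hne
    exact hno s' (Finset.mem_erase.2 ⟨hne, hs'⟩) (hRC hs'R)
  subst hss
  refine ⟨b, R, hR, hRc, hs'R, ?_⟩
  intro s'' hs'' hs''R
  by_contra hne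
  exact hno s'' (Finset.mem_erase.2 ⟨hne, hs''⟩) (hRC hs''R)

/-- Separation: a private set lies on the same side of other hull points as its owner. -/
theorem HullMin.sep {S : Sys α τ} {key : τ → α → ℝ} {Z : Finset α} {m : ℕ} {H : Finset α}
    (h : HullMin S key Z m H) (hk : IsKey S key) {s s' : α} (hs' : s' ∈ H)
    (hne : s ≠ s') {t : τ} {R : Finset α} (hR : IsInit S key Z t R) (hsR : s ∈ R)
    (hs'R : s' ∉ R) {q : α} (hq : q ∈ R) : q < s' ↔ s < s' := by
  obtain ⟨e, hea, hel⟩ := h.lead s' hs'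
  have hs'Z := h.sub hs'
  have hlead : ∀ x ∈ R, S.alive e x → x ≠ s' → ord key e s' < ord key e x := by
    intro x hx hxa hxne
    exact lt_of_le_of_ne (hel x (hR.1 hx) hxa) (fun h' => hxne (ord_inj h').symm)
  have hqne : q ≠ s' := fun h' => hs'R (h' ▸ hq)
  constructor
  · intro hqs
    by_contra hss
    have hss' : s' < s := lt_of_le_of_ne (not_lt.1 hss) (Ne.symm hne)
    -- q < s' < s
    have ha' : S.alive t s' := S.up t q s' hqs.le (hR.2.1 q hq)
    have h1 := hR.ahead hq hs'Z ha' hs'R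
    have h2 := hR.ahead hsR hs'Z ha' hs'R
    rcases le_or_gt t e with hte | hte
    · have h3 := hlead s hsR (S.up e s' s hss'.le hea) hne
      have h4 := hk.ord hss' hte hea h3
      exact absurd h4 (not_lt.2 h2.le)
    · have h3 := hk.ord hqs hte.le (hR.2.1 q hq) h1
      have h4 := hlead q hq (S.mono t e q hte.le (hR.2.1 q hq)) hqne
      exact absurd h3 (not_lt.2 h4.le)
  · intro hss
    by_contra hqs
    have hqs' : s' < q := lt_of_le_of_ne (not_lt.1 hqs) (Ne.symm hqne)
    -- s < s' < q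
    have ha' : S.alive t s' := S.up t s s' hss.le (hR.2.1 s hsR)
    have h1 := hR.ahead hq hs'Z ha' hs'R
    have h2 := hR.ahead hsR hs'Z ha' hs'R
    rcases le_or_gt t e with hte | hte
    · have h3 := hlead q hq (S.up e s' q hqs'.le hea) hqne
      have h4 := hk.ord hqs' hte hea h3
      exact absurd h4 (not_lt.2 h1.le)
    · have h3 := hk.ord hss hte.le (hR.2.1 s hsR) h2
      have h4 := hlead s hsR (S.mono t e s hte.le (hR.2.1 s hsR)) hne
      exact absurd h3 (not_lt.2 h4.le)

/-- Sets compatible with hull-minimal hitting sets of the system. -/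
def Compat (S : Sys α τ) (key : τ → α → ℝ) (B : Set α) : Prop :=
  ∀ s1 s3 q, s1 ∈ B → s3 ∈ B → s3 < q → q < s1 →
    (∃ t, S.alive t q ∧ key t s1 ≤ key t q ∧ (S.alive t s3 → key t s3 < key t q)) →
    (∃ e, S.alive e s3 ∧ (S.alive e q → key e q ≤ key e s3)) →
    (∃ e, S.alive e s1 ∧ (S.alive e q → key e q < key e s1)) → q ∈ B

/-- The ranges of the system. -/
def rng (S : Sys α τ) (key : τ → α → ℝ) (b : τ) (c : ℝ) : Set α :=
  {p | S.alive b p ∧ c ≤ key b p}

theorem compat_self {S : Sys α τ} {key : τ → α → ℝ} (hk : IsKey S key) (b : τ) (c : ℝ) :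
    Compat S key (rng S key b c) := by
  rintro s1 s3 q ⟨ha1, hc1⟩ ⟨ha3, hc3⟩ h3q hq1 ⟨t, htq, ht1, ht3⟩ - -
  have haq : S.alive b q := S.up b s3 q h3q.le ha3
  refine ⟨haq, ?_⟩
  by_contra hlt
  push Not at hlt
  rcases le_or_gt b t with hbt | hbt
  · have := hk t b s1 q hq1 hbt htq ht1
    linarith
  · have h1 := hk b t q s3 h3q hbt.le ha3 (by linarith)
    have h2 := ht3 (S.mono b t s3 hbt.le ha3)
    linarith

theorem HullMin.compat_card {S : Sys α τ} {key : τ → α → ℝ} {Z : Finset α} {m : ℕ}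
    {H : Finset α} (h : HullMin S key Z m H) (hk : IsKey S key) {B : Set α}
    (hB : Compat S key B) {G : Finset α} (hG : ∀ p, p ∈ G ↔ p ∈ Z ∧ p ∈ B) :
    min G.card (m + 1) ≤ (G \ H).card + 2 := by
  classical
  by_cases hc : (G ∩ H).card ≤ 2
  · have := Finset.card_sdiff_add_card_inter G H
    omega
  · -- three hull points in G
    have h3 : 3 ≤ (G ∩ H).card := by omega
    obtain ⟨U, hU, hUc⟩ := Finset.exists_subset_card_eq h3
    have hne : U.Nonempty := Finset.card_pos.1 (by omega)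
    set s1 := U.max' hne with hs1
    set s3 := U.min' hne with hs3
    have hs1U : s1 ∈ U := U.max'_mem hne
    have hs3U : s3 ∈ U := U.min'_mem hne
    have : ∃ s2 ∈ U, s2 ≠ s1 ∧ s2 ≠ s3 := by
      by_contra hcon
      push Not at hcon
      have : U ⊆ {s1, s3} := by
        intro x hx
        by_cases hx1 : x = s1
        · simp [hx1]
        · simp [hcon x hx hx1]
      have := Finset.card_le_card this
      have := Finset.card_le_two (a := s1) (b := s3)
      omega
    obtain ⟨s2, hs2U, h21, h23⟩ := this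
    have hlt1 : s2 < s1 := lt_of_le_of_ne (U.le_max' s2 hs2U) h21
    have hlt3 : s3 < s2 := lt_of_le_of_ne (U.min'_le s2 hs2U) (Ne.symm h23)
    have m1 := Finset.mem_inter.1 (hU hs1U)
    have m2 := Finset.mem_inter.1 (hU hs2U)
    have m3 := Finset.mem_inter.1 (hU hs3U)
    obtain ⟨t, R, hR, hRc, hsR, hRu⟩ := h.priv s2 m2.2
    have n1 : s1 ∉ R := fun h' => h21 (hRu s1 m1.2 h').symm
    have n3 : s3 ∉ R := fun h' => h23 (hRu s3 m3.2 h').symm
    have hRB : ∀ q ∈ R, q ∈ B := by
      intro q hq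
      have e1 : q < s1 := (h.sep hk m1.2 h21 hR hsR n1 hq).2 hlt1
      have e3 : ¬ q < s3 := fun h' =>
        absurd ((h.sep hk m3.2 h23 hR hsR n3 hq).1 h') (not_lt.2 hlt3.le)
      have e3' : s3 < q := lt_of_le_of_ne (not_lt.1 e3) (fun h' => n3 (h' ▸ hq))
      have hqa := hR.2.1 q hq
      refine hB s1 s3 q ((hG s1).1 m1.1).2 ((hG s3).1 m3.1).2 e3' e1 ⟨t, hqa, ?_, ?_⟩ ?_ ?_
      · rw [← ord_lt_iff_of_lt e1]
        exact hR.ahead hq (h.sub m1.2) (S.up t q s1 e1.le hqa) n1
      · intro ha3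
        rw [← ord_lt_iff_of_gt e3']
        exact hR.ahead hq (h.sub m3.2) ha3 n3
      · obtain ⟨e, hea, hel⟩ := h.lead s3 m3.2
        refine ⟨e, hea, fun hqe => ?_⟩
        rw [← ord_lt_iff_of_lt e3']
        exact lt_of_le_of_ne (hel q (hR.1 hq) hqe) (fun h' => e3'.ne (ord_inj h'))
      · obtain ⟨e, hea, hel⟩ := h.lead s1 m1.2
        refine ⟨e, hea, fun hqe => ?_⟩
        rw [← ord_lt_iff_of_gt e1]
        exact lt_of_le_of_ne (hel q (hR.1 hq) hqe) (fun h' => e1.ne' (ord_inj h'))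
    have hsub : R.erase s2 ⊆ G \ H := by
      intro q hq
      obtain ⟨hq2, hqR⟩ := Finset.mem_erase.1 hq
      refine Finset.mem_sdiff.2 ⟨(hG q).2 ⟨hR.1 hqR, hRB q hqR⟩, fun hqH => hq2 (hRu q hqH hqR)⟩
    have := Finset.card_le_card hsub
    rw [Finset.card_erase_of_mem hsR] at this
    omega

open Classical in
theorem isInit_filter_rng {S : Sys α τ} {key : τ → α → ℝ} (Z : Finset α) (b : τ) (c : ℝ) :
    IsInit S key Z b (Z.filter (fun p => p ∈ rng S key b c)) := by
  refine ⟨Finset.filter_subset _ _, fun p hp => (Finset.mem_filter.1 hp).2.1, ?_⟩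
  intro p hp q hq ha ho
  refine Finset.mem_filter.2 ⟨hq, ha, ?_⟩
  have h1 := (Finset.mem_filter.1 hp).2.2
  rcases lt_trichotomy p q with h | h | h
  · exact h1.trans ((ord_lt_iff_of_gt h).1 ho).le
  · exact h ▸ h1
  · exact h1.trans ((ord_lt_iff_of_lt h).1 ho)

/-- The partition lemma for hull-minimal sets. -/
theorem partH_aux (S : Sys α τ) (key : τ → α → ℝ) (hk : IsKey S key) (k : ℕ) : ∀ (j : ℕ)
    (Z : Finset α), ∃ Y ⊆ Z,
      (∀ b c, Many Z (rng S key b c) (k + 2 * j) → Many Y (rng S key b c) j) ∧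
      (∀ B, Compat S key B → Many Z B (k + 2 * j) → Many (Z \ Y) B k) := by
  classical
  intro j
  induction j with
  | zero =>
    intro Z
    refine ⟨∅, Finset.empty_subset _, fun b c _ => ⟨∅, by simp, by simp⟩, ?_⟩
    intro B _ h
    simpa using h
  | succ j ih =>
    intro Z
    obtain ⟨H, hH⟩ := exists_hullMin S key Z (k + 2 * (j + 1)) (by omega)
    obtain ⟨Y, hY, h1, h2⟩ := ih (Z \ H)
    have step : ∀ B, Compat S key B → Many Z B (k + 2 * (j + 1)) →
        Many (Z \ H) B (k + 2 * j) := by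
      intro B hB hm
      rw [many_iff] at hm
      have := hH.compat_card hk hB (G := Z.filter (fun p => p ∈ B)) (by
        intro p; exact Finset.mem_filter)
      rw [many_iff]
      have he : (Z \ H).filter (fun p => p ∈ B) = (Z.filter (fun p => p ∈ B)) \ H := by
        ext x; simp only [Finset.mem_filter, Finset.mem_sdiff]; tauto
      rw [he]
      omega
    refine ⟨H ∪ Y, Finset.union_subset hH.sub (hY.trans Finset.sdiff_subset), ?_, ?_⟩
    · intro b c hm
      have s1 := h1 b c (step _ (compat_self hk b c) hm)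
      obtain ⟨G, hG, hGc⟩ := s1
      rw [many_iff] at hm
      obtain ⟨s, hsH, hs⟩ := hH.hit b _ (isInit_filter_rng Z b c) hm
      have hsG : s ∉ G := by
        intro h'
        exact (Finset.mem_sdiff.1 (hY (hG s h').1)).2 hsH
      refine ⟨insert s G, ?_, ?_⟩
      · intro p hp
        rcases Finset.mem_insert.1 hp with rfl | hp
        · exact ⟨Finset.mem_union_left _ hsH, (Finset.mem_filter.1 hs).2⟩
        · exact ⟨Finset.mem_union_right _ (hG p hp).1, (hG p hp).2⟩
      · rw [Finset.card_insert_of_notMem hsG]; omega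
    · intro B hB hm
      have s2 := h2 B hB (step B hB hm)
      rwa [sdiff_sdiff] at s2

theorem partH (S : Sys α τ) (key : τ → α → ℝ) (hk : IsKey S key) :
    Part {A : Set α | ∃ b c, A = rng S key b c} {B : Set α | Compat S key B} := by
  classical
  intro k
  refine ⟨k + 2 * k, fun X => ?_⟩
  obtain ⟨Y, hY, h1, h2⟩ := partH_aux S key hk k k X
  refine ⟨Y, X \ Y, ?_, ?_, ?_, ?_⟩
  · intro x hx hx'
    exact (Finset.mem_sdiff.1 hx').2 hx
  · intro x
    rw [Finset.mem_sdiff]
    constructor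
    · intro h
      by_cases hy : x ∈ Y
      · exact Or.inl hy
      · exact Or.inr ⟨h, hy⟩
    · rintro (h | h)
      · exact hY h
      · exact h.1
  · rintro A ⟨b, c, rfl⟩ hm
    exact h1 b c hm
  · intro B hB hm
    exact h2 B hB hm

end Pool.Agent.Lib.MP_731221_co
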