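import Pool.Agent.Lib.MP_731221_co.Rfold
import Pool.Agent.Lib.MP_731221_co.Greedy

namespace Pool.Agent.Lib.MP_731221_co

variable {α τ : Type*} [LinearOrder α] [LinearOrder τ]

theorem IsInit.unique {S : Sys α τ} {key : τ → α → ℝ} {Z : Finset α} {b : τ} {C C' : Finset α}
    (h : IsInit S key Z b C) (h' : IsInit S key Z b C') (hc : C.card = C'.card) : C = C' := by
  by_cases hs : C ⊆ C'
  · exact Finset.eq_of_subset_of_card_le hs hc.ge
  · obtain ⟨p, hp, hp'⟩ := Finset.not_subset.1 hs
    refine (Finset.eq_of_subset_of_card_le ?_ hc.le).symm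
    intro q hq
    exact h.2.2 p hp q (h'.1 hq) (h'.2.1 q hq)
      (h'.ahead hq (h.1 hp) (h.2.1 p hp) hp')

theorem chain_of_few (kW : τ → α → ℝ) (b : τ) (K : ℕ) (F : Finset α) : ∀ (n : ℕ) (P : Finset α),
    P.card = n → P ⊆ F →
    (∀ p ∈ P, (F.filter (fun q => q < p ∧ ord kW b q < ord kW b p)).card < K) →
    ∃ T ⊆ P, IsChn kW b T ∧ P.card ≤ K * T.card := by
  classical
  intro n
  induction n using Nat.strong_induction_on with
  | _ n ih =>
    intro P hPn hPF hfew
    rcases P.eq_empty_or_nonempty with rfl | hne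
    · exact ⟨∅, le_rfl, fun p hp => by simp at hp, by simp⟩
    set p := P.max' hne with hp
    have hpP : p ∈ P := P.max'_mem hne
    set P' := P.filter (fun q => q < p ∧ ¬ ord kW b q < ord kW b p) with hP'
    have hlt : P'.card < n := by
      rw [← hPn]
      refine Finset.card_lt_card ⟨Finset.filter_subset _ _, fun h => ?_⟩
      exact absurd (Finset.mem_filter.1 (h hpP)).2.1 (lt_irrefl _)
    have hP'P : P' ⊆ P := Finset.filter_subset _ _
    obtain ⟨T, hT, hTc, hTn⟩ := ih P'.card hlt P' rfl (hP'P.trans hPF)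
      (fun q hq => hfew q (hP'P hq))
    have hpT : p ∉ T := fun h => absurd (Finset.mem_filter.1 (hT h)).2.1 (lt_irrefl _)
    refine ⟨insert p T, Finset.insert_subset hpP (hT.trans hP'P), ?_, ?_⟩
    · intro x hx y hy hyx
      rcases Finset.mem_insert.1 hx with hx | hx
      · rcases Finset.mem_insert.1 hy with hy | hy
        · rw [hx, hy] at hyx; exact absurd hyx (lt_irrefl _)
        · have h1 := (Finset.mem_filter.1 (hT hy)).2
          rw [hx]
          rcases lt_trichotomy (ord kW b p) (ord kW b y) with h | h | h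
          · exact h
          · exact absurd (ord_inj h) h1.1.ne'
          · exact absurd h h1.2
      · rcases Finset.mem_insert.1 hy with hy | hy
        · have h1 := (Finset.mem_filter.1 (hT hx)).2.1
          rw [hy] at hyx
          exact absurd hyx (not_lt.2 h1.le)
        · exact hTc x hx y hy hyx
    · rw [Finset.card_insert_of_notMem hpT]
      have hsub : P ⊆ insert p (P' ∪ F.filter (fun q => q < p ∧ ord kW b q < ord kW b p)) := by
        intro q hq
        by_cases hqp : q = p
        · rw [hqp]; exact Finset.mem_insert_self _ _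
        · refine Finset.mem_insert_of_mem ?_
          have hlt : q < p := lt_of_le_of_ne (P.le_max' q hq) hqp
          by_cases ho : ord kW b q < ord kW b p
          · exact Finset.mem_union_right _ (Finset.mem_filter.2 ⟨hPF hq, hlt, ho⟩)
          · exact Finset.mem_union_left _ (Finset.mem_filter.2 ⟨hq, hlt, ho⟩)
      have e1 := (Finset.card_le_card hsub).trans (Finset.card_insert_le _ _)
      have e2 := Finset.card_union_le P'
        (F.filter (fun q => q < p ∧ ord kW b q < ord kW b p))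
      have e3 := hfew p hpP
      have e4 : K * (T.card + 1) = K * T.card + K := by ring
      omega

theorem greedy_step (S : Sys α τ) (kN kW : τ → α → ℝ) (hN : IsKey S kN) (hW : IsKey S kW)
    (h2 : Opp S kN kW) (l K m : ℕ) (hlt : K * l < m) (Z : Finset α) : ∃ H ⊆ Z,
      (∀ b A, IsInit S kN Z b A → (∀ T ⊆ A, IsChn kW b T → T.card ≤ l) → m ≤ A.card →
        ∃ x ∈ H, x ∈ A) ∧
      (∀ b B, IsInit S kW Z b B → B.card ≤ (B \ H).card + 2 ∨ K ≤ (B \ H).card + 2 ∨
        m ≤ (B \ H).card + 6 * (K * l) + K + 1) := by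
  classical
  set D : Finset (Finset α) := Z.powerset.filter (fun G => G.card = m ∧
    ∃ t, IsInit S kN Z t G ∧ ∀ T ⊆ G, IsChn kW t T → T.card ≤ l) with hD
  rcases D.eq_empty_or_nonempty with h0 | hDne
  · refine ⟨∅, Finset.empty_subset _, ?_, ?_⟩
    · intro b A hA hch hm
      exfalso
      obtain ⟨R, hR, hRc, hRi⟩ := hA.exists_sub hm
      have : R ∈ D := Finset.mem_filter.2 ⟨Finset.mem_powerset.2 hRi.1, hRc, b, hRi,
        fun T hT => hch T (hT.trans hR)⟩
      rw [h0] at this
      simp at this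
    · intro b B _
      left
      simp
  have hNe : Nonempty τ := by
    obtain ⟨G, hG⟩ := hDne
    obtain ⟨t, -⟩ := (Finset.mem_filter.1 hG).2.2
    exact ⟨t⟩
  have hch : ∀ G : Finset α, ∃ t, G ∈ D → (IsInit S kN Z t G ∧ ∀ T ⊆ G, IsChn kW t T → T.card ≤ l) := by
    intro G
    by_cases hG : G ∈ D
    · obtain ⟨t, ht⟩ := (Finset.mem_filter.1 hG).2.2
      exact ⟨t, fun _ => ht⟩
    · exact ⟨Classical.arbitrary τ, fun h => absurd h hG⟩
  choose tm htm using hch
  set T0 : Finset τᵒᵈ := D.image (fun G => OrderDual.toDual (tm G)) with hT0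
  have hF : ∀ i : {x // x ∈ T0}, ∃ G : Finset α, G.card = m ∧ IsInit S kN Z (OrderDual.ofDual i.1) G ∧
      ∀ T ⊆ G, IsChn kW (OrderDual.ofDual i.1) T → T.card ≤ l := by
    rintro ⟨i, hi⟩
    obtain ⟨G, hG, rfl⟩ := Finset.mem_image.1 hi
    exact ⟨G, (Finset.mem_filter.1 hG).2.1, (htm G hG).1, (htm G hG).2⟩
  choose F hFm hFi hFc using hF
  set tt : {x // x ∈ T0} → τ := fun i => OrderDual.ofDual i.1 with htt
  have htt_lt : ∀ i j, i < j → tt j < tt i := fun i j hij => hij
  have htt_le : ∀ i j, i ≤ j → tt j ≤ tt i := fun i j hij => hij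
  obtain ⟨H, hH1, hH2, hH3⟩ := greedy F
    (fun i p q => q < p ∧ ord kW (tt i) q < ord kW (tt i) p) m K (K * l) hFm hlt
    (fun i p q h => h.1)
    (by
      -- N2
      intro i j hij p hpi hpj q hqj hqi
      by_contra hqp
      have hpq : p < q := lt_of_le_of_ne (not_lt.1 hqp) (fun h => hpj (h ▸ hqj))
      have hpa := (hFi i).2.1 p hpi
      have h3 := (hFi i).ahead hpi ((hFi j).1 hqj) (S.up _ _ _ hpq.le hpa) hqi
      have h4 := hN.ord hpq (htt_lt i j hij).le hpa h3
      exact hpj ((hFi j).2.2 q hqj p ((hFi i).1 hpi) (S.mono _ _ _ (htt_lt i j hij).le hpa) h4))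
    (by
      intro i s hs u hu hus
      have hua := (hFi i).2.1 u hu
      rcases h2 (tt i) s u hus hua with h | h
      · right
        intro j hij hsj
        refine (hFi j).2.2 s hsj u ((hFi i).1 hu) (S.mono _ _ _ (htt_le i j hij) hua) ?_
        exact hN.ord hus (htt_le i j hij) hua ((ord_lt_iff_of_lt hus).2 h)
      · left
        exact ⟨hus, (ord_lt_iff_of_lt hus).2 h⟩)
    (by
      intro i
      obtain ⟨T, hT, hTc, hTn⟩ := chain_of_few kW (tt i) K (F i) _
        ((F i).filter (fun p => ((F i).filter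
          (fun q => q < p ∧ ord kW (tt i) q < ord kW (tt i) p)).card < K)) rfl
        (Finset.filter_subset _ _) (fun p hp => (Finset.mem_filter.1 hp).2)
      exact hTn.trans (Nat.mul_le_mul_left K
        (hFc i T (hT.trans (Finset.filter_subset _ _)) hTc)))
  refine ⟨H, ?_, ?_, ?_⟩
  · intro x hx
    obtain ⟨i, hi⟩ := hH1 x hx
    exact (hFi i).1 hi
  · intro b A hA hch hm
    obtain ⟨R, hR, hRc, hRi⟩ := hA.exists_sub hm
    have hRD : R ∈ D := Finset.mem_filter.2 ⟨Finset.mem_powerset.2 hRi.1, hRc, b, hRi,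
      fun T hT => hch T (hT.trans hR)⟩
    have hi : OrderDual.toDual (tm R) ∈ T0 := Finset.mem_image_of_mem _ hRD
    have heq : F ⟨_, hi⟩ = R := by
      refine IsInit.unique (hFi ⟨_, hi⟩) ?_ ((hFm _).trans hRc.symm)
      exact (htm R hRD).1
    obtain ⟨x, hx, hxF⟩ := hH2 ⟨_, hi⟩
    rw [heq] at hxF
    exact ⟨x, hx, hR hxF⟩
  · intro b B hB
    refine hH3 B {q | S.alive b q} (fun i => tt i < b) ?_ ?_ ?_ ?_
    · intro i j hij h
      exact lt_of_le_of_lt (htt_le i j hij) h
    · intro p hp q hq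
      by_contra hlt
      exact hq (S.up b p q (not_lt.1 hlt) (hB.2.1 p hp))
    · intro i hl p hp q hq hf
      have hqa := (hFi i).2.1 q hq
      refine hB.2.2 p hp q ((hFi i).1 hq) (S.mono _ _ _ (not_lt.1 hl) hqa) ?_
      exact hW.ord hf.1 (not_lt.1 hl) hqa hf.2
    · intro i hl s hs hsB q hq hqs hqF
      obtain ⟨j, hqj⟩ := hqF
      exact cross hN hW h2 (hFi i) hB hs hsB ((hFi j).1 hqj) hqs
        (S.mono b _ q (le_of_lt hl) hq) hq

theorem greedy_iter (S : Sys α τ) (kN kW : τ → α → ℝ) (hN : IsKey S kN) (hW : IsKey S kW)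
    (h2 : Opp S kN kW) (l k : ℕ) : ∀ j : ℕ, ∃ M : ℕ, ∀ Z : Finset α, ∃ V ⊆ Z,
      (∀ b A, IsInit S kN Z b A → (∀ T ⊆ A, IsChn kW b T → T.card ≤ l) → M ≤ A.card →
        j ≤ (A ∩ V).card) ∧
      (∀ b B, IsInit S kW Z b B → k + 2 * j ≤ B.card → k ≤ (B \ V).card) := by
  classical
  intro j
  induction j with
  | zero =>
    refine ⟨0, fun Z => ⟨∅, Finset.empty_subset _, fun b A _ _ _ => Nat.zero_le _, ?_⟩⟩
    intro b B _ h
    simpa using h
  | succ j ih =>
    obtain ⟨M, hM⟩ := ih
    set K := k + 2 * (j + 1) with hK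
    set m := 6 * (K * l) + K + 1 + (k + 2 * (j + 1)) with hm
    refine ⟨max m (M + j + 1), fun Z => ?_⟩
    obtain ⟨H, hH, h3, h4⟩ := greedy_step S kN kW hN hW h2 l K m (by omega) Z
    obtain ⟨V, hV, h5, h6⟩ := hM (Z \ H)
    refine ⟨H ∪ V, Finset.union_subset hH (hV.trans Finset.sdiff_subset), ?_, ?_⟩
    · intro b A hA hch hc
      obtain ⟨x, hxH, hxA⟩ := h3 b A hA hch ((le_max_left _ _).trans hc)
      have hpos : 0 < (A ∩ H).card := Finset.card_pos.2 ⟨x, Finset.mem_inter.2 ⟨hxA, hxH⟩⟩
      have e1 := Finset.card_sdiff_add_card_inter A H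
      have e2 : M + j + 1 ≤ A.card := (le_max_right _ _).trans hc
      have hd : (A ∩ H).card + ((A \ H) ∩ V).card ≤ (A ∩ (H ∪ V)).card := by
        rw [← Finset.card_union_of_disjoint]
        · refine Finset.card_le_card ?_
          intro x hx
          simp only [Finset.mem_union, Finset.mem_inter, Finset.mem_sdiff] at hx ⊢
          tauto
        · rw [Finset.disjoint_left]
          intro x hx hx'
          simp only [Finset.mem_inter, Finset.mem_sdiff] at hx hx'
          tauto
      by_cases hc2 : M ≤ (A \ H).card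
      · have := h5 b (A \ H) hA.sdiff (fun T hT => hch T (hT.trans Finset.sdiff_subset)) hc2
        omega
      · omega
    · intro b B hB hc
      have e := h4 b B hB
      have hs : k + 2 * j ≤ (B \ H).card := by
        rcases e with e | e | e <;> omega
      have := h6 b (B \ H) hB.sdiff hs
      have heq : B \ (H ∪ V) = (B \ H) \ V := by
        ext x
        simp only [Finset.mem_union, Finset.mem_sdiff]
        tauto
      rw [heq]
      exact this

/-- The main partition theorem for two opposite keys. -/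
theorem opp_part (S : Sys α τ) (kN kW : τ → α → ℝ) (hN : IsKey S kN) (hW : IsKey S kW)
    (h2 : Opp S kN kW) :
    Part {A : Set α | ∃ b c, A = rng S kN b c} {B : Set α | ∃ b c, B = rng S kW b c} := by
  classical
  intro k
  obtain ⟨MV, hMV⟩ := greedy_iter S kN kW hN hW h2 (4 * (3 * k)) k k
  refine ⟨max (k + MV) (k + 2 * (3 * k)), fun X => ?_⟩
  obtain ⟨Y, hY, h3, h4, -⟩ := rfold S kN kW hN hW h2 k (3 * k) X
  obtain ⟨V, hV, h5, h6⟩ := hMV Y
  refine ⟨(X \ Y) ∪ V, Y \ V, ?_, ?_, ?_, ?_⟩
  · intro x hx hx'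
    simp only [Finset.mem_union, Finset.mem_sdiff] at hx hx'
    tauto
  · intro x
    simp only [Finset.mem_union, Finset.mem_sdiff]
    constructor
    · intro h
      by_cases h1 : x ∈ Y <;> by_cases h2 : x ∈ V <;> tauto
    · rintro ((h | h) | h)
      · exact h.1
      · exact hY (hV h)
      · exact hY h.1
  · rintro A ⟨b, c, rfl⟩ hm
    rw [many_iff] at hm
    have hA := isInit_filter_rng (S := S) (key := kN) X b c
    set A := X.filter (fun p => p ∈ rng S kN b c) with hAdef
    have key : k ≤ (A ∩ ((X \ Y) ∪ V)).card := by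
      by_cases hk : k ≤ (A \ Y).card
      · refine hk.trans (Finset.card_le_card ?_)
        intro x hx
        have hx' := Finset.mem_sdiff.1 hx
        exact Finset.mem_inter.2 ⟨hx'.1, Finset.mem_union_left _
          (Finset.mem_sdiff.2 ⟨hA.1 hx'.1, hx'.2⟩)⟩
      · rcases h4 b A hA with h | h
        · have e1 := Finset.card_sdiff_add_card_inter A Y
          have e2 : k + MV ≤ A.card := (le_max_left _ _).trans hm
          have e3 := h5 b (A ∩ Y) (hA.inter hY) h (by omega)
          refine e3.trans (Finset.card_le_card ?_)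
          intro x hx
          have hx' := Finset.mem_inter.1 hx
          exact Finset.mem_inter.2 ⟨(Finset.mem_inter.1 hx'.1).1,
            Finset.mem_union_right _ hx'.2⟩
        · exact absurd h hk
    refine ⟨_, ?_, key⟩
    intro p hp
    have hp' := Finset.mem_inter.1 hp
    exact ⟨hp'.2, (Finset.mem_filter.1 hp'.1).2⟩
  · rintro B ⟨b, c, rfl⟩ hm
    rw [many_iff] at hm
    have hB := isInit_filter_rng (S := S) (key := kW) X b c
    set B := X.filter (fun p => p ∈ rng S kW b c) with hBdef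
    have e1 := h3 b B hB ((le_max_right _ _).trans hm)
    have e2 := h6 b (B ∩ Y) (hB.inter hY) (by omega)
    refine ⟨_, ?_, e2⟩
    intro p hp
    have hp' := Finset.mem_sdiff.1 hp
    have hp'' := Finset.mem_inter.1 hp'.1
    exact ⟨Finset.mem_sdiff.2 ⟨hp''.2, hp'.2⟩, (Finset.mem_filter.1 hp''.1).2⟩

end Pool.Agent.Lib.MP_731221_co
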