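import Pool.Agent.Lib.MP_731221_co.Geo

namespace Pool.Agent.Lib.MP_731221_co

/-- The half-disk translated by `v`. -/
def HD (v : ℝ × ℝ) : Set (ℝ × ℝ) := {p | (p.1 - v.1) ^ 2 + (p.2 - v.2) ^ 2 ≤ 1 ∧ 0 ≤ p.2 - v.2}

/-- A range in the cell. -/
def cellRange (b c : ℝ) : Set QP := {q | (q.x - c) ^ 2 + (q.y - b) ^ 2 ≤ 1 ∧ b ≤ q.y}

theorem cellRange_mem (b c : ℝ) (s : QP) (hs : s ∈ cellRange b c) :
    cellRange b c ∈ TF ∪ NF ∪ WF := by
  obtain ⟨h1, h2⟩ := hs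
  have gs := s.hx
  have gs' := s.hy
  rcases le_total b (-4 / 5) with hb | hb
  · left; left
    have h3 : (s.x - c) ^ 2 ≤ (3 / 5) ^ 2 := by nlinarith
    have h4 := abs_le_of_sq_le_sq' h3 (by norm_num)
    refine ⟨b, c, hb, by linarith [h4.2], by linarith [h4.1], ?_⟩
    ext p
    have gp := p.hx
    have gp' := p.hy
    have k1 : (p.x - c) ^ 2 ≤ 1 := by nlinarith [h4.1, h4.2]
    have k2 := Real.sq_sqrt (sub_nonneg.2 k1)
    have k3 := Real.sqrt_nonneg (1 - (p.x - c) ^ 2)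
    simp only [cellRange, Set.mem_ofPred_eq]
    constructor
    · rintro ⟨h5, h6⟩
      have := Real.le_sqrt_of_sq_le (show (p.y - b) ^ 2 ≤ 1 - (p.x - c) ^ 2 by linarith)
      linarith
    · intro h5
      refine ⟨?_, by linarith⟩
      have : (p.y - b) ^ 2 ≤ √(1 - (p.x - c) ^ 2) ^ 2 := by
        apply sq_le_sq' <;> linarith
      linarith
  · rcases le_total (1 / 20) c with hc | hc
    · left; right
      refine ⟨b, c, hb, hc, ?_⟩
      ext p
      have gp := p.hx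
      have gp' := p.hy
      simp only [cellRange, Set.mem_ofPred_eq]
      rw [and_comm]
      apply and_congr_right
      intro h5
      have k0 : (p.y - b) ^ 2 ≤ 81 / 100 := by nlinarith
      have k1 : (0 : ℝ) ≤ 1 - (p.y - b) ^ 2 := by linarith
      have k2 := Real.sq_sqrt k1
      have k3 : 2 / 5 ≤ √(1 - (p.y - b) ^ 2) := by
        apply Real.le_sqrt_of_sq_le; linarith
      constructor
      · intro h6
        have := Real.le_sqrt_of_sq_le (show (c - p.x) ^ 2 ≤ 1 - (p.y - b) ^ 2 by nlinarith)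
        linarith
      · intro h6
        have : (p.x - c) ^ 2 ≤ √(1 - (p.y - b) ^ 2) ^ 2 := by
          apply sq_le_sq' <;> linarith
        linarith
    · right
      refine ⟨b, c, hb, hc, ?_⟩
      ext p
      have gp := p.hx
      have gp' := p.hy
      simp only [cellRange, Set.mem_ofPred_eq]
      rw [and_comm]
      apply and_congr_right
      intro h5
      have k0 : (p.y - b) ^ 2 ≤ 81 / 100 := by nlinarith
      have k1 : (0 : ℝ) ≤ 1 - (p.y - b) ^ 2 := by linarith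
      have k2 := Real.sq_sqrt k1
      have k3 : 2 / 5 ≤ √(1 - (p.y - b) ^ 2) := by
        apply Real.le_sqrt_of_sq_le; linarith
      constructor
      · intro h6
        have := Real.le_sqrt_of_sq_le (show (p.x - c) ^ 2 ≤ 1 - (p.y - b) ^ 2 by nlinarith)
        linarith
      · intro h6
        have : (p.x - c) ^ 2 ≤ √(1 - (p.y - b) ^ 2) ^ 2 := by
          apply sq_le_sq' <;> linarith
        linarith

/-- The index of the cell containing a point. -/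
noncomputable def cellOf (p : ℝ × ℝ) : ℤ × ℤ := (⌊10 * p.1⌋, ⌊10 * p.2⌋)

/-- The position of a point inside its cell. -/
noncomputable def loc (p : ℝ × ℝ) : QP :=
  ⟨p.1 - (⌊10 * p.1⌋ : ℝ) / 10, p.2 - (⌊10 * p.2⌋ : ℝ) / 10,
    ⟨by linarith [Int.floor_le (10 * p.1)], by linarith [Int.lt_floor_add_one (10 * p.1)]⟩,
    ⟨by linarith [Int.floor_le (10 * p.2)], by linarith [Int.lt_floor_add_one (10 * p.2)]⟩⟩

theorem loc_inj {p q : ℝ × ℝ} (h : cellOf p = cellOf q) (hl : loc p = loc q) : p = q := by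
  unfold cellOf at h
  have h1 : (⌊10 * p.1⌋ : ℤ) = ⌊10 * q.1⌋ := (Prod.mk.injEq _ _ _ _ ▸ h).1
  have h2 : (⌊10 * p.2⌋ : ℤ) = ⌊10 * q.2⌋ := (Prod.mk.injEq _ _ _ _ ▸ h).2
  have e1 : p.1 - (⌊10 * p.1⌋ : ℝ) / 10 = q.1 - (⌊10 * q.1⌋ : ℝ) / 10 := congrArg QP.x hl
  have e2 : p.2 - (⌊10 * p.2⌋ : ℝ) / 10 = q.2 - (⌊10 * q.2⌋ : ℝ) / 10 := congrArg QP.y hl
  rw [h1] at e1
  rw [h2] at e2
  exact Prod.ext (by linarith) (by linarith)

theorem mem_HD_iff (v p : ℝ × ℝ) (z : ℤ × ℤ) (hz : cellOf p = z) :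
    p ∈ HD v ↔ loc p ∈ cellRange (v.2 - (z.2 : ℝ) / 10) (v.1 - (z.1 : ℝ) / 10) := by
  subst hz
  simp only [HD, cellRange, loc, cellOf, Set.mem_ofPred_eq]
  have e1 : p.1 - (⌊10 * p.1⌋ : ℝ) / 10 - (v.1 - (⌊10 * p.1⌋ : ℝ) / 10) = p.1 - v.1 := by ring
  have e2 : p.2 - (⌊10 * p.2⌋ : ℝ) / 10 - (v.2 - (⌊10 * p.2⌋ : ℝ) / 10) = p.2 - v.2 := by ring
  rw [e1, e2]
  apply and_congr_right
  intro _
  constructor <;> intro h <;> linarith

theorem plane_colouring : ∃ m : ℕ, ∀ P : Finset (ℝ × ℝ), ∃ col : ℝ × ℝ → Bool,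
    ∀ v : ℝ × ℝ, ∀ G : Finset (ℝ × ℝ), (∀ p ∈ G, p ∈ P ∧ p ∈ HD v) → m ≤ G.card →
      ∀ c : Bool, ∃ p ∈ P, p ∈ HD v ∧ col p = c := by
  classical
  obtain ⟨m0, hm0⟩ := cell_colourable
  refine ⟨231 * (m0 + 1), fun P => ?_⟩
  let X : ℤ × ℤ → Finset QP := fun z => (P.filter (fun p => cellOf p = z)).image loc
  choose col hcol using fun z => hm0 (X z)
  refine ⟨fun p => col (cellOf p) (loc p), ?_⟩
  intro v G hG hc c
  let T : Finset (ℤ × ℤ) := Finset.Icc ⌊10 * v.1 - 10⌋ (⌊10 * v.1 - 10⌋ + 20) ×ˢ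
    Finset.Icc ⌊10 * v.2⌋ (⌊10 * v.2⌋ + 10)
  have hT : T.card = 231 := by
    simp only [T, Finset.card_product, Int.card_Icc]
    have e1 : ⌊10 * v.1 - 10⌋ + 20 + 1 - ⌊10 * v.1 - 10⌋ = 21 := by ring
    have e2 : ⌊10 * v.2⌋ + 10 + 1 - ⌊10 * v.2⌋ = 11 := by ring
    rw [e1, e2]
    rfl
  have hTne : T.Nonempty := by
    rw [← Finset.card_pos, hT]; norm_num
  have hmap : ∀ p ∈ G, cellOf p ∈ T := by
    intro p hp
    obtain ⟨h1, h2⟩ := (hG p hp).2
    have h3 : (p.1 - v.1) ^ 2 ≤ 1 := by nlinarith [sq_nonneg (p.2 - v.2)]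
    have h4 : (p.2 - v.2) ^ 2 ≤ 1 := by nlinarith [sq_nonneg (p.1 - v.1)]
    have h5 := abs_le.1 ((sq_le_one_iff_abs_le_one _).1 h3)
    have h6 := abs_le.1 ((sq_le_one_iff_abs_le_one _).1 h4)
    simp only [T, cellOf, Finset.mem_product, Finset.mem_Icc]
    refine ⟨⟨Int.floor_le_floor (by linarith [h5.1]), ?_⟩,
      Int.floor_le_floor (by linarith), ?_⟩
    · have e : ⌊10 * v.1 - 10⌋ + 20 = ⌊10 * v.1 - 10 + (20 : ℤ)⌋ := (Int.floor_add_intCast _ _).symm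
      rw [e]
      apply Int.floor_le_floor
      push_cast
      linarith [h5.2]
    · have e : ⌊10 * v.2⌋ + 10 = ⌊10 * v.2 + (10 : ℤ)⌋ := (Int.floor_add_intCast _ _).symm
      rw [e]
      apply Int.floor_le_floor
      push_cast
      linarith [h6.2]
  obtain ⟨z, hz, hzc⟩ := Finset.exists_le_card_fiber_of_mul_le_card_of_maps_to hmap hTne
    (n := m0 + 1) (by rw [hT]; exact hc)
  set Gz := G.filter (fun p => cellOf p = z) with hGz
  have hne : Gz.Nonempty := Finset.card_pos.1 (by omega)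
  obtain ⟨s, hs⟩ := hne
  obtain ⟨hsG, hsz⟩ := Finset.mem_filter.1 hs
  have hrange := cellRange_mem _ _ _ ((mem_HD_iff v s z hsz).1 (hG s hsG).2)
  have hmany : Many (X z) (cellRange (v.2 - (z.2 : ℝ) / 10) (v.1 - (z.1 : ℝ) / 10)) m0 := by
    refine ⟨Gz.image loc, ?_, ?_⟩
    · intro q hq
      obtain ⟨p, hp, rfl⟩ := Finset.mem_image.1 hq
      obtain ⟨hpG, hpz⟩ := Finset.mem_filter.1 hp
      refine ⟨Finset.mem_image_of_mem _ (Finset.mem_filter.2 ⟨(hG p hpG).1, hpz⟩), ?_⟩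
      exact (mem_HD_iff v p z hpz).1 (hG p hpG).2
    · rw [Finset.card_image_of_injOn]
      · omega
      · intro p hp q hq h
        have hp' := (Finset.mem_filter.1 (Finset.mem_coe.1 hp)).2
        have hq' := (Finset.mem_filter.1 (Finset.mem_coe.1 hq)).2
        exact loc_inj (hp'.trans hq'.symm) h
  obtain ⟨q, hq, hqA, hqc⟩ := hcol z _ hrange hmany c
  obtain ⟨p, hp, rfl⟩ := Finset.mem_image.1 hq
  obtain ⟨hpP, hpz⟩ := Finset.mem_filter.1 hp
  refine ⟨p, hpP, (mem_HD_iff v p z hpz).2 hqA, ?_⟩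
  show col (cellOf p) (loc p) = c
  rw [hpz]
  exact hqc

end Pool.Agent.Lib.MP_731221_co
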