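import Pool.Agent.Lib.MP_731221_co.Hull

namespace Pool.Agent.Lib.MP_731221_co

variable {α τ : Type*} [LinearOrder α] [LinearOrder τ]

/-- Two keys on the same system such that the younger is ahead in one of the two. -/
def Opp (S : Sys α τ) (kN kW : τ → α → ℝ) : Prop :=
  ∀ b p q, q < p → S.alive b q → kN b p ≤ kN b q ∨ kW b p ≤ kW b q

/-- A set in which the older is always ahead. -/
def IsChn (kW : τ → α → ℝ) (b : τ) (T : Finset α) : Prop :=
  ∀ p ∈ T, ∀ q ∈ T, q < p → ord kW b p < ord kW b q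

/-- The crossing property of initial segments of the two kinds. -/
theorem cross {S : Sys α τ} {kN kW : τ → α → ℝ} (hN : IsKey S kN) (hW : IsKey S kW)
    (h2 : Opp S kN kW) {Z A B : Finset α} {bA bB : τ} (hA : IsInit S kN Z bA A)
    (hB : IsInit S kW Z bB B) {s q : α} (hsA : s ∈ A) (hsB : s ∈ B) (hqZ : q ∈ Z)
    (hqs : q < s) (ha : S.alive bA q) (hb : S.alive bB q) : q ∈ A ∨ q ∈ B := by
  have hm : S.alive (max bA bB) q := by
    rcases max_choice bA bB with h | h <;> rw [h] <;> assumption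
  rcases h2 (max bA bB) s q hqs hm with h | h
  · left
    refine hA.2.2 s hsA q hqZ ha ?_
    rw [ord_lt_iff_of_lt hqs]
    exact hN _ _ s q hqs (le_max_left _ _) hm h
  · right
    refine hB.2.2 s hsB q hqZ hb ?_
    rw [ord_lt_iff_of_lt hqs]
    exact hW _ _ s q hqs (le_max_right _ _) hm h

/-- A long chain of hull points inside an initial segment of the other kind forces a whole
private set inside it. -/
theorem HullMin.chain {S : Sys α τ} {kN kW : τ → α → ℝ} (hN : IsKey S kN) (hW : IsKey S kW)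
    (h2 : Opp S kN kW) {Z : Finset α} {m : ℕ} {H : Finset α} (h : HullMin S kW Z m H)
    {b : τ} {A : Finset α} (hA : IsInit S kN Z b A) {T : Finset α} (hTA : T ⊆ A) (hTH : T ⊆ H)
    (hT : IsChn kW b T) (hc : 5 ≤ T.card) :
    ∃ s ∈ H, ∃ t R, IsInit S kW Z t R ∧ R.card = m ∧ s ∈ R ∧ (∀ s' ∈ H, s' ∈ R → s' = s) ∧
      R ⊆ A := by
  classical
  obtain ⟨U, hU, hUc⟩ := Finset.exists_subset_card_eq hc
  set f := U.orderEmbOfFin hUc with hf
  have hfU : ∀ i, f i ∈ U := fun i => Finset.orderEmbOfFin_mem U hUc i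
  have hmono : ∀ i j : Fin 5, i < j → f i < f j := fun i j hij => f.strictMono hij
  have hfA : ∀ i, f i ∈ A := fun i => hTA (hU (hfU i))
  have hfH : ∀ i, f i ∈ H := fun i => hTH (hU (hfU i))
  -- w5 = f 0 < w4 = f 1 < w3 = f 2 < w2 = f 3 < w1 = f 4
  have time : ∀ i : Fin 5, i < 4 → ∀ t R, IsInit S kW Z t R → f i ∈ R →
      (∀ s' ∈ H, s' ∈ R → s' = f i) → t < b := by
    intro i hi t R hR hfi hu
    by_contra hlt
    push Not at hlt
    have h4 : f i < f 4 := hmono i 4 hi
    have hn : f 4 ∉ R := fun h' => h4.ne' (hu _ (hfH 4) h')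
    have ha : S.alive t (f i) := hR.2.1 _ hfi
    have h5 := hR.ahead hfi (h.sub (hfH 4)) (S.up t _ _ h4.le ha) hn
    have h6 := hW.ord h4 hlt ha h5
    exact absurd h6 (not_lt.2 (hT _ (hU (hfU 4)) _ (hU (hfU i)) h4).le)
  obtain ⟨t2, R2, hR2, -, hs2, hu2⟩ := h.priv (f 3) (hfH 3)
  obtain ⟨t4, R4, hR4, hc4, hs4, hu4⟩ := h.priv (f 1) (hfH 1)
  have ht2 : t2 < b := time 3 (by decide) t2 R2 hR2 hs2 hu2
  refine ⟨f 1, hfH 1, t4, R4, hR4, hc4, hs4, hu4, ?_⟩
  intro q hq
  have n0 : f 0 ∉ R4 := fun h' => (hmono 0 1 (by decide)).ne (hu4 _ (hfH 0) h')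
  have n2 : f 2 ∉ R4 := fun h' => (hmono 1 2 (by decide)).ne' (hu4 _ (hfH 2) h')
  have n2' : f 2 ∉ R2 := fun h' => (hmono 2 3 (by decide)).ne (hu2 _ (hfH 2) h')
  have q2 : q < f 2 :=
    (h.sep hW (hfH 2) (hmono 1 2 (by decide)).ne hR4 hs4 n2 hq).2 (hmono 1 2 (by decide))
  have q0 : f 0 < q := by
    have e : ¬ q < f 0 := fun h' =>
      absurd ((h.sep hW (hfH 0) (hmono 0 1 (by decide)).ne' hR4 hs4 n0 hq).1 h')
        (not_lt.2 (hmono 0 1 (by decide)).le)
    exact lt_of_le_of_ne (not_lt.1 e) (fun h' => n0 (h' ▸ hq))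
  have qb : S.alive b q := S.up b _ _ q0.le (hA.2.1 _ (hfA 0))
  have qt : S.alive t2 q := S.mono b t2 q ht2.le qb
  have q3 : q < f 3 := q2.trans (hmono 2 3 (by decide))
  rcases cross hN hW h2 hA hR2 (hfA 3) hs2 (hR4.1 hq) q3 qb qt with h' | h'
  · exact h'
  · exfalso
    have := (h.sep hW (hfH 2) (hmono 2 3 (by decide)).ne' hR2 hs2 n2' h').1 q2
    exact absurd this (not_lt.2 (hmono 2 3 (by decide)).le)

/-- An initial segment is compatible in the counting sense. -/
theorem HullMin.init_card {S : Sys α τ} {key : τ → α → ℝ} {Z : Finset α} {m : ℕ}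
    {H : Finset α} (h : HullMin S key Z m H) (hk : IsKey S key) {b : τ} {C : Finset α}
    (hC : IsInit S key Z b C) : min C.card (m + 1) ≤ (C \ H).card + 2 := by
  classical
  rcases C.eq_empty_or_nonempty with rfl | hne
  · simp
  obtain ⟨p, hp, hmin⟩ := C.exists_min_image (key b) hne
  -- compatibility only needs the initial property on Z
  by_cases hc : (C ∩ H).card ≤ 2
  · have := Finset.card_sdiff_add_card_inter C H
    omega
  have h3 : 3 ≤ (C ∩ H).card := by omega
  obtain ⟨U, hU, hUc⟩ := Finset.exists_subset_card_eq h3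
  set f := U.orderEmbOfFin hUc with hf
  have hfU : ∀ i, f i ∈ U := fun i => Finset.orderEmbOfFin_mem U hUc i
  have hmono : ∀ i j : Fin 3, i < j → f i < f j := fun i j hij => f.strictMono hij
  have hfC : ∀ i, f i ∈ C := fun i => (Finset.mem_inter.1 (hU (hfU i))).1
  have hfH : ∀ i, f i ∈ H := fun i => (Finset.mem_inter.1 (hU (hfU i))).2
  obtain ⟨t, R, hR, hRc, hsR, hRu⟩ := h.priv (f 1) (hfH 1)
  have n0 : f 0 ∉ R := fun h' => (hmono 0 1 (by decide)).ne (hRu _ (hfH 0) h')
  have n2 : f 2 ∉ R := fun h' => (hmono 1 2 (by decide)).ne' (hRu _ (hfH 2) h')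
  have hRC : R ⊆ C := by
    intro q hq
    have q2 : q < f 2 :=
      (h.sep hk (hfH 2) (hmono 1 2 (by decide)).ne hR hsR n2 hq).2 (hmono 1 2 (by decide))
    have q0 : f 0 < q := by
      have e : ¬ q < f 0 := fun h' =>
        absurd ((h.sep hk (hfH 0) (hmono 0 1 (by decide)).ne' hR hsR n0 hq).1 h')
          (not_lt.2 (hmono 0 1 (by decide)).le)
      exact lt_of_le_of_ne (not_lt.1 e) (fun h' => n0 (h' ▸ hq))
    have qb : S.alive b q := S.up b _ _ q0.le (hC.2.1 _ (hfC 0))
    by_contra hqC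
    have a2 := hC.ahead (hfC 2) (hR.1 hq) qb hqC
    have a0 := hC.ahead (hfC 0) (hR.1 hq) qb hqC
    have hqt := hR.2.1 q hq
    rcases le_or_gt b t with hbt | hbt
    · have h5 := hR.ahead hq (h.sub (hfH 2)) (S.up t _ _ q2.le hqt) n2
      have h6 := hk.ord q2 hbt hqt h5
      exact absurd h6 (not_lt.2 a2.le)
    · have ha0 := hC.2.1 _ (hfC 0)
      have h6 := hk.ord q0 hbt.le ha0 a0
      have h7 := hR.ahead hq (h.sub (hfH 0)) (S.mono b t _ hbt.le ha0) n0
      exact absurd h6 (not_lt.2 h7.le)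
  have hsub : R.erase (f 1) ⊆ C \ H := by
    intro q hq
    obtain ⟨hq2, hqR⟩ := Finset.mem_erase.1 hq
    exact Finset.mem_sdiff.2 ⟨hRC hqR, fun hqH => hq2 (hRu q hqH hqR)⟩
  have := Finset.card_le_card hsub
  rw [Finset.card_erase_of_mem hsR] at this
  omega

theorem rfold (S : Sys α τ) (kN kW : τ → α → ℝ) (hN : IsKey S kN) (hW : IsKey S kW)
    (h2 : Opp S kN kW) (m : ℕ) : ∀ (r : ℕ) (Z : Finset α), ∃ Y ⊆ Z,
      (∀ b C, IsInit S kW Z b C → m + 2 * r ≤ C.card → r ≤ (C ∩ Y).card) ∧
      (∀ b A, IsInit S kN Z b A →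
        (∀ T ⊆ A ∩ Y, IsChn kW b T → T.card ≤ 4 * r) ∨ m ≤ (A \ Y).card) ∧
      (∀ b C, IsInit S kW Z b C → min C.card (m + 2 * r) ≤ (C \ Y).card + 2 * r) := by
  classical
  intro r
  induction r with
  | zero =>
    intro Z
    refine ⟨∅, Finset.empty_subset _, fun b C _ _ => Nat.zero_le _, ?_, ?_⟩
    · intro b A _
      left
      intro T hT _
      have : T = ∅ := by
        rw [Finset.inter_empty] at hT
        exact Finset.subset_empty.1 hT
      simp [this]
    · intro b C _
      simp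
  | succ r ih =>
    intro Z
    obtain ⟨H, hH⟩ := exists_hullMin S kW Z (m + 2 * (r + 1)) (by omega)
    obtain ⟨Y, hY, h1, h2', h3⟩ := ih (Z \ H)
    have hdisj : ∀ C : Finset α, (C ∩ H).card + ((C \ H) ∩ Y).card ≤ (C ∩ (H ∪ Y)).card := by
      intro C
      rw [← Finset.card_union_of_disjoint]
      · refine Finset.card_le_card ?_
        intro x hx
        simp only [Finset.mem_union, Finset.mem_inter, Finset.mem_sdiff] at hx ⊢
        tauto
      · rw [Finset.disjoint_left]
        intro x hx hx'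
        simp only [Finset.mem_inter, Finset.mem_sdiff] at hx hx'
        tauto
    have hsd : ∀ C : Finset α, C \ (H ∪ Y) = (C \ H) \ Y := by
      intro C
      ext x
      simp only [Finset.mem_union, Finset.mem_sdiff]
      tauto
    refine ⟨H ∪ Y, Finset.union_subset hH.sub (hY.trans Finset.sdiff_subset), ?_, ?_, ?_⟩
    · intro b C hC hc
      obtain ⟨s, hsH, hsC⟩ := hH.hit b C hC hc
      have h4 := hH.init_card hW hC
      have h5 := h1 b (C \ H) hC.sdiff (by omega)
      have h6 := hdisj C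
      have h7 : 0 < (C ∩ H).card := Finset.card_pos.2 ⟨s, Finset.mem_inter.2 ⟨hsC, hsH⟩⟩
      omega
    · intro b A hA
      by_cases hm : m ≤ (A \ (H ∪ Y)).card
      · exact Or.inr hm
      left
      intro T hT hchn
      have hTA : T ⊆ A := fun x hx => (Finset.mem_inter.1 (hT hx)).1
      -- part in H
      have c1 : (T ∩ H).card ≤ 4 := by
        by_contra hlt
        push Not at hlt
        obtain ⟨s, hsH, t, R, hR, hRc, hsR, hRu, hRA⟩ := hH.chain hN hW h2 hA
          (T := T ∩ H) (Finset.inter_subset_left.trans hTA) Finset.inter_subset_right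
          (fun p hp q hq hpq => hchn p (Finset.mem_inter.1 hp).1 q (Finset.mem_inter.1 hq).1 hpq)
          hlt
        have h4 := h3 t (R \ H) hR.sdiff
        have h5 : R.erase s ⊆ R \ H := by
          intro q hq
          obtain ⟨hq2, hqR⟩ := Finset.mem_erase.1 hq
          exact Finset.mem_sdiff.2 ⟨hqR, fun hqH => hq2 (hRu q hqH hqR)⟩
        have h6 := Finset.card_le_card h5
        rw [Finset.card_erase_of_mem hsR] at h6
        have h7 : (R \ H) \ Y ⊆ A \ (H ∪ Y) := by
          rw [hsd]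
          exact Finset.sdiff_subset_sdiff (Finset.sdiff_subset_sdiff hRA le_rfl) le_rfl
        have h8 := Finset.card_le_card h7
        omega
      have c2 : (T \ H).card ≤ 4 * r := by
        rcases h2' b (A \ H) hA.sdiff with h | h
        · refine h (T \ H) ?_ (fun p hp q hq hpq => hchn p (Finset.mem_sdiff.1 hp).1 q
            (Finset.mem_sdiff.1 hq).1 hpq)
          intro x hx
          have hx' := Finset.mem_sdiff.1 hx
          have hxT := Finset.mem_inter.1 (hT hx'.1)
          refine Finset.mem_inter.2 ⟨Finset.mem_sdiff.2 ⟨hxT.1, hx'.2⟩, ?_⟩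
          rcases Finset.mem_union.1 hxT.2 with h' | h'
          · exact absurd h' hx'.2
          · exact h'
        · exfalso
          rw [hsd] at hm
          exact hm h
      have := Finset.card_sdiff_add_card_inter T H
      omega
    · intro b C hC
      rw [hsd]
      have h4 := hH.init_card hW hC
      have h5 := h3 b (C \ H) hC.sdiff
      omega

end Pool.Agent.Lib.MP_731221_co
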